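import Pool.Agent.Lib.MP_6b2d39_agHy.CertT
import Pool.Agent.Lib.MP_6b2d39_agHy.EmpCut

set_option autoImplicit false

namespace Pool.Agent.Lib.MP_6b2d39_agHh

open Pool.Agent.Lib.MP_6b2d39_agNw Pool.Agent.Lib.MP_6b2d39_agHl Pool.Agent.Lib.MP_6b2d39_agHy

/-- HH1. `end_neg` (`Hy/EndNeg.lean`) with another `h4`: copy its proof; `k ≤ c b - r b ≤ G + σ` for
`b < T` gives `4 k ≤ n` at once. -/
theorem end_neg_h {n N T u : ℕ} {μ : Fin n → ℕ} {r : ℕ → ℕ} {v G σ : ℝ} (hT : 1 ≤ T)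
    (h0 : ∀ b, T < b → r b = 0)
    (hv : v = ∑ b ∈ Finset.range (T + 1), (r b : ℝ) -
      ∑ b ∈ Finset.range (T + 1), ((∑ i, (μ i - b) : ℕ) : ℝ))
    (hn : n ≤ 4 * (Finset.univ.filter fun i => μ i = T).card)
    (h1 : ∀ b < T, G ≤ ((∑ i, (μ i - b) : ℕ) : ℝ) - r b)
    (h2 : ∀ b < T, ((∑ i, (μ i - b) : ℕ) : ℝ) - r b ≤ G + σ)
    (h3 : ((∑ i, (μ i - T) : ℕ) : ℝ) - r T ≤ max (G + σ) 0)
    (hσ : 0 ≤ σ) (hvσ : v + (T + 1) * σ ≤ 0) (h4 : 4 * (G + σ) ≤ n) :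
    EmpQ (dgm r N) (Sum.elim μ (fun _ => 1) : Fin n ⊕ Fin u → ℕ) Finset.univ := by
  obtain ⟨c, hc⟩ : ∃ c : ℕ → ℕ, c = fun b => ∑ i, (μ i - b) := ⟨_, rfl⟩
  have hcb : ∀ b, ∑ i, (μ i - b) = c b := fun b => by rw [hc]
  simp only [hcb] at hv h1 h2 h3
  have hT1 : (1 : ℝ) ≤ T := by exact_mod_cast hT
  -- the minimum
  obtain ⟨b₀, hb₀, hmin⟩ := Finset.exists_min_image (Finset.range T)
    (fun b => (c b : ℤ) - r b) ⟨0, Finset.mem_range.2 (by omega)⟩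
  rw [Finset.mem_range] at hb₀
  obtain ⟨k, hk⟩ : ∃ k : ℤ, k = (c b₀ : ℤ) - r b₀ := ⟨_, rfl⟩
  have hkm : ∀ b < T, k ≤ (c b : ℤ) - r b := fun b hb => by
    rw [hk]
    exact hmin b (Finset.mem_range.2 hb)
  have hkR : (k : ℝ) = (c b₀ : ℝ) - r b₀ := by
    rw [hk]
    push_cast
    ring
  have hkmR : ∀ b < T, (k : ℝ) ≤ (c b : ℝ) - r b := fun b hb => by
    have h5 := hkm b hb
    have h6 : ((k : ℤ) : ℝ) ≤ (((c b : ℤ) - r b : ℤ) : ℝ) := by exact_mod_cast h5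
    push_cast at h6
    exact h6
  have hGk : G ≤ k := by
    rw [hkR]
    exact h1 b₀ hb₀
  -- the sum
  obtain ⟨s, hs⟩ : ∃ s : ℝ, s = ∑ b ∈ Finset.range T, ((c b : ℝ) - r b) := ⟨_, rfl⟩
  have hsv : s = -v - ((c T : ℝ) - r T) := by
    rw [hv, Finset.sum_range_succ, Finset.sum_range_succ, hs, Finset.sum_sub_distrib]
    ring
  have hsu : s ≤ T * (G + σ) := by
    rw [hs]
    have h5 := Finset.sum_le_card_nsmul (Finset.range T) (fun b => (c b : ℝ) - r b) (G + σ)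
      (fun b hb => h2 b (Finset.mem_range.1 hb))
    rw [Finset.card_range, nsmul_eq_mul] at h5
    exact h5
  have hsl : T * (k : ℝ) ≤ s := by
    rw [hs]
    have h5 := Finset.card_nsmul_le_sum (Finset.range T) (fun b => (c b : ℝ) - r b) (k : ℝ)
      (fun b hb => hkmR b (Finset.mem_range.1 hb))
    rw [Finset.card_range, nsmul_eq_mul] at h5
    exact h5
  have hk0 : 0 ≤ k := by
    by_contra hcon
    have h5 : k ≤ -1 := by omega
    have h6 : (k : ℝ) ≤ -1 := by exact_mod_cast h5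
    have h7 : G ≤ -1 := hGk.trans h6
    have h8 : (c T : ℝ) - r T ≤ σ := h3.trans (max_le (by linarith) hσ)
    have h9 : s ≤ T * (σ - 1) := hsu.trans
      (mul_le_mul_of_nonneg_left (by linarith) (by linarith))
    nlinarith
  obtain ⟨K, rfl⟩ := Int.eq_ofNat_of_zero_le hk0
  have hKR : ((K : ℤ) : ℝ) = (K : ℝ) := by push_cast; rfl
  rw [hKR] at hsl hGk
  have hcT : (0 : ℝ) ≤ c T := Nat.cast_nonneg _
  have h4K : 4 * K ≤ n := by
    have h5 : (K : ℝ) ≤ G + σ := by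
      rw [← hKR, hkR]
      exact h2 b₀ hb₀
    have h6 : (4 * K : ℝ) ≤ n := by linarith
    exact_mod_cast h6
  obtain ⟨J, hJ, hJc⟩ := Finset.exists_subset_card_eq
    (s := Finset.univ.filter fun i => μ i = T) (n := K) (by omega)
  refine emp_inl (emp_cut h0 (emp_of_cert (cert_top (J := J) (fun i hi =>
    (Finset.mem_filter.1 (hJ hi)).2) (fun b hb => ?_) ?_)))
  · rw [hcb, hJc]
    have h5 := hkm b hb
    omega
  · rw [hcb, hJc]
    have h5 : (r T : ℝ) ≤ c T + K * T := by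
      have h6 : (r T : ℝ) - c T = v + s := by rw [hsv]; ring
      have h7 : s ≤ T * (K + σ) := hsu.trans
        (mul_le_mul_of_nonneg_left (by linarith) (by linarith))
      nlinarith
    exact_mod_cast h5

end Pool.Agent.Lib.MP_6b2d39_agHh
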