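import Pool.Agent.Lib.MP_6b2d39_agHh.NumH
import Pool.Agent.Lib.MP_6b2d39_agHh.EndNegH
import Pool.Agent.Lib.MP_6b2d39_agHg.NumG
import Pool.Agent.Lib.MP_6b2d39_agHg.RowsV
import Pool.Agent.Lib.MP_6b2d39_agHg.Defs
import Pool.Agent.Lib.MP_6b2d39_agHz.NumZA
import Pool.Agent.Lib.MP_6b2d39_agHz.NumZB
import Pool.Agent.Lib.MP_6b2d39_agHz.NumZC
import Pool.Agent.Lib.MP_6b2d39_agHy.Dem

set_option autoImplicit false

namespace Pool.Agent.Lib.MP_6b2d39_agHh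

open Pool.Agent.Lib.MP_6b2d39_agHl Pool.Agent.Lib.MP_6b2d39_agHz Pool.Agent.Lib.MP_6b2d39_agHy
  Pool.Agent.Lib.MP_6b2d39_ag Pool.Agent.Lib.MP_6b2d39_agNw Pool.Agent.Lib.MP_6b2d39_agHg

/-- HH4. `neg_g` (`Hg/NegG.lean`) for `m ≥ 1`: copy its proof with `d_near_h`, `end_neg_h`
(`4 (G + σ) = 4 (S - W) ≤ n` from `w_lower_z`; `Fr.top` is not needed). -/
theorem neg_h {n N m u : ℕ} {μ : Fin n → ℕ} {r : ℕ → ℕ} {f D Au Δ β B : ℝ}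
    (hμ : ∀ i, μ i = m ∨ μ i = m + 1) (hm : 1 ≤ m) (hF : Fz (√n) m f (Δ / 2))
    (hfn : f ^ 2 ≤ n) (hr : Fr N r f D Au Δ) (hD : 0 ≤ D) (hAu : |Au - D| ≤ √n / 100)
    (hβ : 0 ≤ β) (hβ1 : β ≤ 1) (hB : 0 ≤ B) (hB1 : B ≤ (n : ℝ) * m / 1000)
    (ha : |(CC r N : ℝ) - D ^ 2 / 2| ≤ β * D + B)
    (hv : (CC r N : ℝ) - ((∑ i, (μ i + 1).choose 2 : ℕ) : ℝ) ≤ -(((m : ℝ) + 2) * (2 * Δ + 1)))
    (hv' : -((n : ℝ) * m / 1000) ≤ (CC r N : ℝ) - ((∑ i, (μ i + 1).choose 2 : ℕ) : ℝ)) :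
    EmpQ (dgm r N) (Sum.elim μ (fun _ => 1) : Fin n ⊕ Fin u → ℕ) Finset.univ := by
  have hm' : (1 : ℝ) ≤ m := by exact_mod_cast hm
  obtain ⟨R, hRd⟩ : ∃ R : ℝ, R = √(n : ℝ) := ⟨_, rfl⟩
  rw [← hRd] at hF hAu
  have hR0 := hF.r0
  have hf0 := hF.xf0
  have hf1 := hF.xf1
  have hΔ0 : 0 ≤ Δ := by linarith [hF.b0]
  have hΔ1 : Δ ≤ R / 500 := by linarith [hF.b1]
  have hRn : R ^ 2 = (n : ℝ) := by
    rw [hRd]
    exact Real.sq_sqrt (Nat.cast_nonneg n)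
  have hn : 1 ≤ n := by
    rcases Nat.eq_zero_or_pos n with h | h
    · rw [h] at hRd
      simp only [Nat.cast_zero, Real.sqrt_zero] at hRd
      linarith
    · exact h
  obtain ⟨S, hS⟩ : ∃ S : ℝ, S = ((∑ i, μ i : ℕ) : ℝ) := ⟨_, rfl⟩
  obtain ⟨v, hvd⟩ : ∃ v : ℝ, v = (CC r N : ℝ) - ((∑ i, (μ i + 1).choose 2 : ℕ) : ℝ) := ⟨_, rfl⟩
  have hM := ms_of hn hμ
  rw [← hRd, ← hS] at hM
  have hS0 : 0 ≤ S := by
    rw [hS]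
    exact Nat.cast_nonneg _
  obtain ⟨σ, hσ⟩ : ∃ σ : ℝ, σ = 2 * Δ + 1 := ⟨_, rfl⟩
  have hσ0 : 0 ≤ σ := by
    rw [hσ]
    linarith
  rw [← hvd, ← hσ] at hv
  have hmσ : 0 ≤ ((m : ℝ) + 2) * σ := mul_nonneg (by linarith) hσ0
  have hD' : |D - (S / R + R / 2)| ≤ R / 8 := by
    refine d_near_h (V := R ^ 2 * m / 1000) hR0 hm' hM hD hβ hβ1 hB (by rwa [hRn]) le_rfl ha ?_ ?_
    · linarith
    · rw [hRn]
      linarith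
  obtain ⟨hD1, hD2⟩ := abs_le.1 hD'
  obtain ⟨hA1, hA2⟩ := abs_le.1 hAu
  have hSR : 0 ≤ S / R := div_nonneg hS0 (by linarith)
  have hAu0 : 0 < Au := by linarith
  -- the last row
  obtain ⟨T, t1, t2⟩ : ∃ T : ℕ, f * T < Au ∧ Au ≤ f * ((T : ℝ) + 1) := by
    have h1 : 0 < ⌈Au / f⌉₊ := Nat.ceil_pos.2 (div_pos hAu0 hf0)
    refine ⟨⌈Au / f⌉₊ - 1, ?_, ?_⟩
    · have h2 : ((⌈Au / f⌉₊ - 1 : ℕ) : ℝ) < Au / f := Nat.lt_ceil.1 (by omega)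
      rw [lt_div_iff₀ hf0] at h2
      linarith
    · have h2 : ((⌈Au / f⌉₊ - 1 : ℕ) : ℝ) + 1 = (⌈Au / f⌉₊ : ℝ) := by
        have h3 : ⌈Au / f⌉₊ - 1 + 1 = ⌈Au / f⌉₊ := by omega
        exact_mod_cast h3
      rw [h2]
      have h3 := Nat.le_ceil (Au / f)
      rw [div_le_iff₀ hf0] at h3
      linarith
  obtain ⟨T1, T2⟩ := top_g hF hS0 hM.s1 hD' hAu t1 t2
  rw [hRn, hS] at T1 T2
  obtain ⟨hTm, hcard⟩ := card_top hn hμ T1 T2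
  have hloss : ((n : ℝ) - f ^ 2) * m ≤ 1 := by
    rw [← hRn]
    exact loss_z hF
  obtain ⟨U, hU⟩ : ∃ U : ℝ, U = f * D - f ^ 2 / 2 + Δ := ⟨_, rfl⟩
  obtain ⟨W, hW⟩ : ∃ W : ℝ, W = f * D - f ^ 2 / 2 - Δ := ⟨_, rfl⟩
  obtain ⟨b1, b2, b3⟩ := dem_bounds (r := r) (U := U) (W := W) hμ hfn hloss hTm
    (fun b hb => by
      rw [hU]
      refine hr.hi b ?_
      have h1 : ((b : ℝ) + 1) ≤ T := by exact_mod_cast hb
      have h2 : f * ((b : ℝ) + 1) ≤ f * T := mul_le_mul_of_nonneg_left h1 hf0.le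
      linarith)
    (fun b => by
      rw [hW]
      exact hr.lo b)
  have hmT : (m : ℝ) ≤ T := by
    rcases hTm with h | h
    · rw [h]
    · rw [h]
      push_cast
      linarith
  have hTm' : (T : ℝ) ≤ m + 1 := by
    rcases hTm with h | h
    · rw [h]
      linarith
    · rw [h]
      push_cast
      exact le_rfl
  have h0 : ∀ b, T < b → r b = 0 := by
    intro b hb
    refine hr.zero b ?_
    have h1 : ((T : ℝ) + 1) ≤ b := by exact_mod_cast hb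
    have h2 : f * ((T : ℝ) + 1) ≤ f * b := mul_le_mul_of_nonneg_left h1 hf0.le
    linarith
  have hvr := v_rows hμ hTm hr.z h0
  rw [← hvd] at hvr
  obtain ⟨G, hG⟩ : ∃ G : ℝ, G = S - U - 1 := ⟨_, rfl⟩
  have hGσ : G + σ = S - W := by
    rw [hG, hσ, hU, hW]
    ring
  rw [← hS] at b1 b2 b3
  rw [← hG] at b1
  rw [← hGσ] at b2 b3
  refine end_neg_h (v := v) (G := G) (σ := σ) ?_ h0 hvr hcard b1 b2 b3 hσ0 ?_ ?_
  · have h1 : (1 : ℝ) ≤ T := by linarith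
    exact_mod_cast h1
  · have h1 : ((T : ℝ) + 1) * σ ≤ ((m : ℝ) + 2) * σ :=
      mul_le_mul_of_nonneg_right (by linarith) hσ0
    linarith
  · have h1 := w_lower_z hF hS0 hM.s1 hD'
    have h2 : S - W ≤ R ^ 2 / 4 := by
      rw [hW]
      linarith
    rw [hGσ, ← hRn]
    linarith

end Pool.Agent.Lib.MP_6b2d39_agHh
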