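import Pool.Agent.Lib.MP_6b2d39_agHh.NumH
import Pool.Agent.Lib.MP_6b2d39_agHg.NumG
import Pool.Agent.Lib.MP_6b2d39_agHg.RowsV
import Pool.Agent.Lib.MP_6b2d39_agHg.Defs
import Pool.Agent.Lib.MP_6b2d39_agHz.NumZA
import Pool.Agent.Lib.MP_6b2d39_agHz.NumZB
import Pool.Agent.Lib.MP_6b2d39_agHz.NumZC
import Pool.Agent.Lib.MP_6b2d39_agHy.Dem
import Pool.Agent.Lib.MP_6b2d39_agHy.EndPos
import Pool.Agent.Lib.MP_6b2d39_agHl.RowsCmp
import Pool.Agent.Lib.MP_6b2d39_agHl.Last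

set_option autoImplicit false

namespace Pool.Agent.Lib.MP_6b2d39_agHh

open Pool.Agent.Lib.MP_6b2d39_agHl Pool.Agent.Lib.MP_6b2d39_agHz Pool.Agent.Lib.MP_6b2d39_agHy
  Pool.Agent.Lib.MP_6b2d39_ag Pool.Agent.Lib.MP_6b2d39_agNw Pool.Agent.Lib.MP_6b2d39_agHg

/-- HH5. `pos_g` (`Hg/PosG.lean`) for `m ≥ 1`: copy its proof with `d_lower_h`. -/
theorem pos_h {n N m u : ℕ} {μ : Fin n → ℕ} {r : ℕ → ℕ} {f D Au Δ β B : ℝ}
    (hμ : ∀ i, μ i = m ∨ μ i = m + 1) (hm : 1 ≤ m) (hmN : m + 1 ≤ N)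
    (hF : Fz (√n) m f (Δ / 2)) (hfn : f ^ 2 ≤ n) (hr : Fr N r f D Au Δ) (hD : 0 ≤ D)
    (hAu : |Au - D| ≤ √n / 100) (hβ : 0 ≤ β) (hβ1 : β ≤ 1) (hB : 0 ≤ B)
    (hB1 : B ≤ (n : ℝ) * m / 1000) (ha : |(CC r N : ℝ) - D ^ 2 / 2| ≤ β * D + B)
    (hv : ((m : ℝ) + 2) * (2 * Δ + 1) ≤ (CC r N : ℝ) - ((∑ i, (μ i + 1).choose 2 : ℕ) : ℝ))
    (hu : (CC r N : ℝ) - ((∑ i, (μ i + 1).choose 2 : ℕ) : ℝ) ≤ u) :
    EmpQ (dgm r N) (Sum.elim μ (fun _ => 1) : Fin n ⊕ Fin u → ℕ) Finset.univ := by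
  obtain ⟨R, hR⟩ : ∃ R : ℝ, R = √(n : ℝ) := ⟨_, rfl⟩
  rw [← hR] at hF hAu
  have hR0 := hF.r0
  have hRn : R ^ 2 = (n : ℝ) := by
    rw [hR]
    exact Real.sq_sqrt (Nat.cast_nonneg n)
  have hn : 1 ≤ n := by
    rcases Nat.eq_zero_or_pos n with h | h
    · rw [h] at hR
      simp only [Nat.cast_zero, Real.sqrt_zero] at hR
      linarith
    · exact h
  obtain ⟨S, hS⟩ : ∃ S : ℝ, S = ((∑ i, μ i : ℕ) : ℝ) := ⟨_, rfl⟩
  obtain ⟨M, hMM⟩ : ∃ M : ℝ, M = ((∑ i, (μ i + 1).choose 2 : ℕ) : ℝ) := ⟨_, rfl⟩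
  have hM := ms_of hn hμ
  rw [← hR, ← hS, ← hMM] at hM
  rw [← hMM] at hv hu
  have hm' : (1 : ℝ) ≤ m := by exact_mod_cast hm
  have hRp : 0 < R := by linarith
  have hΔ : 0 ≤ Δ := by linarith [hF.b0]
  have hΔ2 : 2 * (Δ / 2) = Δ := by ring
  have hs0 : 0 ≤ ((m : ℝ) + 2) * (2 * Δ + 1) := mul_nonneg (by linarith) (by linarith)
  have hB1' : B ≤ R ^ 2 * m / 1000 := by rw [hRn]; exact hB1
  have hDl := d_lower_h hR0 hm' hM hD hβ hβ1 hB hB1' ha (by linarith)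
  have hS0 : 0 ≤ S := by
    rw [hS]
    exact Nat.cast_nonneg _
  rcases le_or_gt S (f * D - f ^ 2 / 2 - Δ) with hSW | hSW
  · -- the points are contained in the rows
    have hle' := rows_pos hμ hfn (by rw [← hS]; exact hSW) hr.lo
    have hdem := demand_sum (N := N) hμ hmN
    have h5 : ∑ b ∈ Finset.range N, (r b - ∑ i, (μ i - b)) +
        ∑ b ∈ Finset.range N, ∑ i, (μ i - b) = ∑ b ∈ Finset.range N, r b := by
      rw [← Finset.sum_add_distrib]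
      exact Finset.sum_congr rfl fun b _ => Nat.sub_add_cancel (hle' b)
    rw [hdem] at h5
    refine emp_last r N μ ?_
    have h6 : ((∑ b ∈ Finset.range N, (r b - ∑ i, (μ i - b)) : ℕ) : ℝ) + M = (CC r N : ℝ) := by
      rw [hMM]
      unfold CC
      exact_mod_cast h5
    have h7 : ((∑ b ∈ Finset.range N, (r b - ∑ i, (μ i - b)) : ℕ) : ℝ) ≤ u := by linarith
    exact_mod_cast h7
  · have hDu := d_upper_z hF hS0 hM.s1 (by rw [hΔ2]; exact hSW)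
    have hDD : |D - (S / R + R / 2)| ≤ R / 8 := by
      rw [abs_le]
      constructor <;> linarith
    have hf := hF.xf0
    have hSR0 : 0 ≤ S / R := div_nonneg hS0 hRp.le
    have hAp : 0 < Au := by
      have h1 := (abs_le.1 hAu).1
      linarith
    obtain ⟨T, hT⟩ : ∃ T, T + 1 = ⌈Au / f⌉₊ := by
      have h1 : 0 < ⌈Au / f⌉₊ := Nat.ceil_pos.2 (div_pos hAp hf)
      exact ⟨⌈Au / f⌉₊ - 1, by omega⟩
    have t1 : f * T < Au := by
      have h1 : (T : ℝ) < Au / f := Nat.lt_ceil.1 (by omega)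
      rw [lt_div_iff₀ hf] at h1
      linarith
    have t2 : Au ≤ f * (T + 1) := by
      have h1 : Au / f ≤ ((T + 1 : ℕ) : ℝ) := by
        rw [hT]
        exact Nat.le_ceil _
      rw [div_le_iff₀ hf] at h1
      push_cast at h1
      linarith
    obtain ⟨T1, T2⟩ := top_g (T := (T : ℝ)) hF hS0 hM.s1 hDD hAu t1 t2
    rw [hRn, hS] at T1 T2
    obtain ⟨hTm, hcard⟩ := card_top hn hμ T1 T2
    have hloss : ((n : ℝ) - f ^ 2) * m ≤ 1 := by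
      rw [← hRn]
      exact loss_z hF
    have r0 : ∀ b, T < b → r b = 0 := by
      intro b hb
      refine hr.zero b (t2.trans ?_)
      have h1 : ((T : ℝ) + 1) ≤ b := by exact_mod_cast hb
      exact mul_le_mul_of_nonneg_left h1 hf.le
    have rU : ∀ b < T, (r b : ℝ) ≤ (f * D - f ^ 2 / 2 + Δ) - f ^ 2 * b := by
      intro b hb
      refine hr.hi b (le_trans ?_ t1.le)
      have h1 : ((b : ℝ) + 1) ≤ T := by exact_mod_cast hb
      exact mul_le_mul_of_nonneg_left h1 hf.le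
    obtain ⟨b1, b2, b3⟩ := dem_bounds hμ hfn hloss hTm rU hr.lo
    have hTm' : (T : ℝ) ≤ m + 1 := by
      rcases hTm with h | h
      · rw [h]
        linarith
      · rw [h]
        push_cast
        exact le_rfl
    have hvr := v_rows hμ hTm hr.z r0
    rw [← hMM] at hvr
    have w3 := w_lower_z hF hS0 hM.s1 hDD
    rw [hΔ2] at w3
    obtain ⟨G, hG⟩ : ∃ G : ℝ, G = S - (f * D - f ^ 2 / 2 + Δ) - 1 := ⟨_, rfl⟩
    obtain ⟨σ', hσ⟩ : ∃ σ' : ℝ, σ' = 2 * Δ + 1 := ⟨_, rfl⟩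
    have hGσ : G + σ' = S - (f * D - f ^ 2 / 2 - Δ) := by
      rw [hG, hσ]
      ring
    rw [← hS] at b1 b2
    rw [← hG] at b1
    rw [← hGσ] at b2 w3
    refine end_pos (v := (CC r N : ℝ) - M) (G := G) (σ := σ') r0 hvr hcard b1 b2 ?_ ?_ ?_ hu
    · linarith
    · have h1 : (T : ℝ) * σ' ≤ ((m : ℝ) + 2) * σ' :=
        mul_le_mul_of_nonneg_right (by linarith) (by rw [hσ]; linarith)
      rw [← hσ] at hv
      linarith
    · rw [← hRn]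
      linarith

end Pool.Agent.Lib.MP_6b2d39_agHh
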