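import Pool.Agent.Lib.MP_6b2d39_agHh.ClassRH
import Pool.Agent.Lib.MP_6b2d39_agHh.NegH
import Pool.Agent.Lib.MP_6b2d39_agHh.PosH
import Pool.Agent.Lib.MP_6b2d39_agHg.Piece
import Pool.Agent.Lib.MP_6b2d39_agHg.PieceD
import Pool.Agent.Lib.MP_6b2d39_agHg.StepP

set_option autoImplicit false

namespace Pool.Agent.Lib.MP_6b2d39_agHh

open Pool.Agent.Lib.MP_6b2d39_agHl Pool.Agent.Lib.MP_6b2d39_agHz Pool.Agent.Lib.MP_6b2d39_ag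
  Pool.Agent.Lib.MP_6b2d39_agNw Pool.Agent.Lib.MP_6b2d39_agHg

/-- HH9. `class_g` (`Hg/ClassG.lean`) for `m ≥ 1`: copy its proof with `class_r_h`, `neg_h`, `pos_h`. -/
theorem class_h : ∃ N0 : ℝ, ∀ (ν t0 t1 : ℝ) (q n m u N s B : ℕ) (P Z : Finset (ℕ × ℕ))
    (μ : Fin n → ℕ), N0 ≤ ν → q = ⌊ν ^ (1 / 20 : ℝ)⌋₊ → q ≤ N → m + 1 ≤ N →
    ν ^ (-(1 / 200) : ℝ) / 3 / 8 ≤ t1 - t0 → Pc q N P Z s B t0 t1 →
    ν ≤ n → 1 ≤ m → (n : ℝ) * (m + 1) ≤ Real.exp (2 * ν ^ (1 / 250 : ℝ)) →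
    (∀ i, μ i = m ∨ μ i = m + 1) →
    (((P ∪ Z).card : ℝ) - ((∑ i, (μ i + 1).choose 2 : ℕ) : ℝ) ≤
        -(40 * m * √n / (q * √(t1 - t0))) ∧
      -((n : ℝ) * m / 1000) ≤ ((P ∪ Z).card : ℝ) - ((∑ i, (μ i + 1).choose 2 : ℕ) : ℝ) ∨
    40 * m * √n / (q * √(t1 - t0)) ≤
        ((P ∪ Z).card : ℝ) - ((∑ i, (μ i + 1).choose 2 : ℕ) : ℝ) ∧
      ((P ∪ Z).card : ℝ) - ((∑ i, (μ i + 1).choose 2 : ℕ) : ℝ) ≤ u) →
    EmpQ (P ∪ Z) (Sum.elim μ (fun _ => 1) : Fin n ⊕ Fin u → ℕ) Finset.univ := by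
  obtain ⟨N1, hN1⟩ := class_r_h
  refine ⟨max N1 (max 1048576 ((2400 : ℝ) ^ (200 / 19 : ℝ))), ?_⟩
  intro ν t0 t1 q n m u N s B P Z μ hν hq hqN hmN ht hPc hνn hm hexp hμ hor
  have hν1 : N1 ≤ ν := (le_max_left _ _).trans hν
  have hν2 : (1048576 : ℝ) ≤ ν := (le_max_left _ _).trans ((le_max_right _ _).trans hν)
  have hν3 : (2400 : ℝ) ^ (200 / 19 : ℝ) ≤ ν := (le_max_right _ _).trans ((le_max_right _ _).trans hν)
  have hν0 : 0 < ν := by linarith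
  -- the size of `q`
  obtain ⟨a, ha⟩ : ∃ a : ℝ, a = ν ^ (1 / 20 : ℝ) := ⟨_, rfl⟩
  have ha2 : 2 ≤ a := by
    have h1 : ((1048576 : ℝ)) ^ (1 / 20 : ℝ) ≤ ν ^ (1 / 20 : ℝ) :=
      Real.rpow_le_rpow (by norm_num) hν2 (by norm_num)
    have h2 : (1048576 : ℝ) = (2 : ℝ) ^ (20 : ℝ) := by
      rw [show (20 : ℝ) = ((20 : ℕ) : ℝ) by norm_num, Real.rpow_natCast]
      norm_num
    rw [h2, ← Real.rpow_mul (by norm_num)] at h1
    norm_num at h1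
    rw [ha]
    exact h1
  have hqa : a / 2 ≤ q := by
    have h1 : a < (q : ℝ) + 1 := by
      rw [hq, ha]
      exact Nat.lt_floor_add_one _
    linarith
  have hq1 : (1 : ℝ) ≤ q := by linarith
  have hqnat : 1 ≤ q := by exact_mod_cast hq1
  have hq0 : (0 : ℝ) < q := by linarith
  -- the slope
  obtain ⟨κ, hκ⟩ : ∃ κ : ℝ, κ = (q : ℝ) ^ 2 * (t1 - t0) := ⟨_, rfl⟩
  have hκ1 : (q : ℝ) ^ 2 * (ν ^ (-(1 / 200) : ℝ) / 3) / 8 ≤ κ := by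
    rw [hκ, mul_div_assoc]
    exact mul_le_mul_of_nonneg_left ht (by positivity)
  have h2400 : (2400 : ℝ) ≤ ν ^ (19 / 200 : ℝ) := by
    have h1 : ((2400 : ℝ) ^ (200 / 19 : ℝ)) ^ (19 / 200 : ℝ) ≤ ν ^ (19 / 200 : ℝ) :=
      Real.rpow_le_rpow (by positivity) hν3 (by norm_num)
    rw [← Real.rpow_mul (by norm_num)] at h1
    norm_num at h1
    exact h1
  have hκ25 : 25 ≤ κ := by
    refine le_trans ?_ hκ1
    have h1 : a ^ 2 / 4 ≤ (q : ℝ) ^ 2 := by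
      have := pow_le_pow_left₀ (by linarith) hqa 2
      linarith [show (a / 2) ^ 2 = a ^ 2 / 4 by ring]
    have h2 : a ^ 2 * ν ^ (-(1 / 200) : ℝ) = ν ^ (19 / 200 : ℝ) := by
      rw [ha, ← Real.rpow_natCast, ← Real.rpow_mul hν0.le, ← Real.rpow_add hν0]
      norm_num
    have h3 : a ^ 2 / 4 * ν ^ (-(1 / 200) : ℝ) ≤ (q : ℝ) ^ 2 * ν ^ (-(1 / 200) : ℝ) :=
      mul_le_mul_of_nonneg_right h1 (by positivity)
    have h4 : a ^ 2 / 4 * ν ^ (-(1 / 200) : ℝ) = ν ^ (19 / 200 : ℝ) / 4 := by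
      rw [← h2]
      ring
    rw [h4] at h3
    linarith
  have hκ0 : 0 < κ := by linarith
  have hκ2 : κ ≤ (q : ℝ) ^ 2 := by
    rw [hκ]
    have h1 : t1 - t0 ≤ 1 := by linarith [hPc.p0, hPc.p1]
    nlinarith [sq_nonneg (q : ℝ)]
  have hsk : 0 < √κ := Real.sqrt_pos.2 hκ0
  have hsk2 : √κ * √κ = κ := Real.mul_self_sqrt hκ0.le
  have hs0 := hPc.s0
  have hs1 := hPc.s1
  obtain ⟨y, hy⟩ : ∃ y : ℝ, y = ((s : ℝ) - (q : ℝ) ^ 2 * t0) / √κ := ⟨_, rfl⟩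
  have hy1 : √κ ≤ y := by
    rw [hy, le_div_iff₀ hsk, hsk2, hκ]
    linarith
  have hy2 : y ≤ √κ + 1 / √κ := by
    have h1 : √κ + 1 / √κ = (κ + 1) / √κ := by
      rw [eq_div_iff hsk.ne', add_mul, hsk2, div_mul_cancel₀ _ hsk.ne']
    rw [h1, hy]
    refine div_le_div_of_nonneg_right ?_ hsk.le
    rw [hκ]
    linarith
  obtain ⟨h, hh⟩ : ∃ h : ℝ, h = √κ * ((LL q N : ℝ) / (q : ℝ) ^ 2) := ⟨_, rfl⟩
  have hh0 : 0 ≤ h := by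
    rw [hh]
    positivity
  have hLL : LL q N ≤ q ^ 2 * N := by
    unfold LL
    have h1 : q * N ≤ q ^ 2 * N := by
      refine Nat.mul_le_mul_right N ?_
      nlinarith
    omega
  have hcast : ((q ^ 2 : ℕ) : ℝ) = (q : ℝ) ^ 2 := by push_cast; ring
  obtain ⟨hRw, hLB⟩ := piece_st (y := y) (h := h) hPc.reg hPc.p0 (by rw [hcast, ← hκ]; exact hκ25)
    (by rw [hcast]; exact hs0) (by rw [hcast]; exact hs1) hLL hPc.B0 hPc.z hPc.ne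
    (by rw [hcast, ← hκ]; exact hy) (by rw [hcast, ← hκ]; exact hh)
  have hX : 2 * (Z.card : ℝ) ≤ (q : ℝ) ^ 2 := by
    have := hPc.zc
    exact_mod_cast this
  obtain ⟨r, f, D, Au, Δ, β, B', hRed, hFr, hFz, hfn, hD, hAu, hβ, hβ1, hB', hB1, ha', hΔ⟩ :=
    hN1 ν κ y (Z.card : ℝ) h q n m N (stP s (P ∪ Z)) hν1 hq hκ1 hκ2 hy1 hy2 (by positivity) hX hh0
      hνn hm hexp hRw hLB
  have hlt : ∀ p ∈ P ∪ Z, p.2 < N := by
    intro p hp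
    rcases Finset.mem_union.1 hp with h1 | h1
    · exact ((hPc.reg p.1 p.2).1 h1).1
    · rw [hPc.z p h1]
      exact hPc.B0
  have hCC : CC r N = (P ∪ Z).card := by
    unfold CC
    rw [hRed.sum, stP_sum hlt]
  have hsqrt : √κ = q * √(t1 - t0) := by
    rw [hκ, Real.sqrt_mul (by positivity), Real.sqrt_sq hq0.le]
  rw [hsqrt] at hΔ
  have hE : EmpQ (dgm r N) (Sum.elim μ (fun _ => 1) : Fin n ⊕ Fin u → ℕ) Finset.univ := by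
    rcases hor with ⟨h1, h2⟩ | ⟨h1, h2⟩
    · refine neg_h hμ hm hFz hfn hFr hD hAu hβ hβ1 hB' hB1 ha' ?_ ?_
      · rw [hCC]
        linarith
      · rw [hCC]
        exact h2
    · refine pos_h hμ hm hmN hFz hfn hFr hD hAu hβ hβ1 hB' hB1 ha' ?_ ?_
      · rw [hCC]
        linarith
      · rw [hCC]
        exact h2
  have hs : 1 ≤ s := by
    have h1 : 0 < (q : ℝ) ^ 2 * t1 := by
      have h2 : (q : ℝ) ^ 2 * t1 = κ + (q : ℝ) ^ 2 * t0 := by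
        rw [hκ]
        ring
      rw [h2]
      have := mul_nonneg (sq_nonneg (q : ℝ)) hPc.p0
      linarith
    have h3 : (0 : ℝ) < s := by linarith
    exact_mod_cast h3
  exact step_P hs hlt (hRed.emp hE)

end Pool.Agent.Lib.MP_6b2d39_agHh
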