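import Pool.Agent.Lib.MP_6b2d39_agHh.ParH
import Pool.Agent.Lib.MP_6b2d39_agHg.ChRows
import Pool.Agent.Lib.MP_6b2d39_agHg.LastG

set_option autoImplicit false

namespace Pool.Agent.Lib.MP_6b2d39_agHh

open Pool.Agent.Lib.MP_6b2d39_agHl Pool.Agent.Lib.MP_6b2d39_agHz Pool.Agent.Lib.MP_6b2d39_agHg

/-- HH8. `class_r` (`Hg/ClassR.lean`) for `m ≥ 1`: copy its proof with `par_h`. -/
theorem class_r_h : ∃ N0 : ℝ, ∀ (ν κ y X h : ℝ) (q n m N : ℕ) (r0 : ℕ → ℕ), N0 ≤ ν →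
    q = ⌊ν ^ (1 / 20 : ℝ)⌋₊ → (q : ℝ) ^ 2 * (ν ^ (-(1 / 200) : ℝ) / 3) / 8 ≤ κ →
    κ ≤ (q : ℝ) ^ 2 → √κ ≤ y → y ≤ √κ + 1 / √κ → 0 ≤ X → 2 * X ≤ (q : ℝ) ^ 2 → 0 ≤ h →
    ν ≤ n → 1 ≤ m → (n : ℝ) * (m + 1) ≤ Real.exp (2 * ν ^ (1 / 250 : ℝ)) →
    Rw y (h + (3 + X) / y) (h + y - 2) N r0 →
    LB y (4 / y) (y ^ 2 / 4 + X + 20) (h + y / 2 - 1 / 2) N r0 →
    ∃ (r : ℕ → ℕ) (f D Au Δ β B : ℝ), Red N r0 r ∧ Fr N r f D Au Δ ∧ Fz (√n) m f (Δ / 2) ∧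
      f ^ 2 ≤ n ∧ 0 ≤ D ∧ |Au - D| ≤ √n / 100 ∧ 0 ≤ β ∧ β ≤ 1 ∧ 0 ≤ B ∧
      B ≤ (n : ℝ) * m / 1000 ∧ |(CC r N : ℝ) - D ^ 2 / 2| ≤ β * D + B ∧
      ((m : ℝ) + 2) * (2 * Δ + 1) ≤ 40 * m * √n / √κ := by
  obtain ⟨N0, hN0⟩ := par_h
  refine ⟨N0, fun ν κ y X h q n m N r0 h0 hq hκ1 hκ2 hy1 hy2 hX0 hX1 hh hn hm hexp hr hL => ?_⟩
  obtain ⟨hS, k, s, x, f, Δ, B, b1, b2, b3, b4, b5, b6, b7, b8, b9, b10, -, b12, b13, b14⟩ :=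
    hN0 ν κ y X h q n m h0 hq hκ1 hκ2 hy1 hy2 hX0 hX1 hn hm hexp
  obtain ⟨Q, hQ⟩ : ∃ Q : ℝ, Q = (q : ℝ) ^ 2 := ⟨_, rfl⟩
  rw [← hQ] at hS b8
  have hk8 := hS.k0
  have hκ0 : 0 ≤ κ := by linarith
  have hK4 : (10000 : ℝ) ≤ √κ := Real.le_sqrt_of_sq_le (by linarith)
  have hy4 : (10000 : ℝ) ≤ y := hK4.trans hy1
  have hy0 : 0 < y := by linarith
  have hyx : y ≤ x := b1.mono (by linarith)
  have hx1 : 1 ≤ x := by linarith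
  have hβ0 : 0 ≤ 4 / y := by positivity
  have hβ1 : 4 / y ≤ 1 := by
    rw [div_le_one hy0]
    linarith
  have hN0' : 0 ≤ h + y / 2 - 1 / 2 + 1 / 2 := by linarith
  obtain ⟨r, hred, hw, hlb⟩ := chain_g b1 (by linarith : (1 : ℝ) ≤ y) hβ0 hβ1
    (by positivity : 0 ≤ y ^ 2 / 4 + X + 20) hN0' b2 (fun z hz1 hz2 => dm_le hS hz1 hz2)
    (by positivity) (lam_le hS hh) hr hL
  rw [← b8] at hlb
  have hlast := last_g hx1 b3 b4 b5 b6 hN0' hw hlb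
  have harea := area_g hx1 hβ0 hN0' hw hlb
  have hd : h + (3 + X) / y - (h + y / 2 - 1 / 2 + 1 / 2) = (3 + X) / y - y / 2 := by ring
  have hsum : CC (stp s N r) N = CC r N := stp_sum s N r
  have hB0 : 0 ≤ B := by
    rw [b8]
    positivity
  refine ⟨stp s N r, f, h + y / 2 - 1 / 2 + 1 / 2, h + (3 + X) / y, Δ, 4 / y,
    4 / y * (|(3 + X) / y - y / 2| + 1) + B, hred.trans (Relation.ReflTransGen.single ⟨s, b3, rfl⟩),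
    ?_, b10, b7, hN0', ?_, hβ0, hβ1, by positivity, b13, ?_, b14⟩
  · rw [b9]
    rw [hd] at hlast
    exact hlast
  · rw [hd]
    exact b12
  · rw [hsum]
    refine harea.trans ?_
    have h1 : max (h + (3 + X) / y) (h + y / 2 - 1 / 2 + 1 / 2) ≤
        h + y / 2 - 1 / 2 + 1 / 2 + |(3 + X) / y - y / 2| := by
      rw [← hd]
      refine max_le ?_ ?_
      · have := le_abs_self (h + (3 + X) / y - (h + y / 2 - 1 / 2 + 1 / 2))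
        linarith
      · have := abs_nonneg (h + (3 + X) / y - (h + y / 2 - 1 / 2 + 1 / 2))
        linarith
    have h2 : 4 / y * (max (h + (3 + X) / y) (h + y / 2 - 1 / 2 + 1 / 2) + 1) ≤
        4 / y * (h + y / 2 - 1 / 2 + 1 / 2 + |(3 + X) / y - y / 2| + 1) :=
      mul_le_mul_of_nonneg_left (by linarith) hβ0
    have h3 : 4 / y * (h + y / 2 - 1 / 2 + 1 / 2 + |(3 + X) / y - y / 2| + 1) =
        4 / y * (h + y / 2 - 1 / 2 + 1 / 2) + 4 / y * (|(3 + X) / y - y / 2| + 1) := by ring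
    linarith

end Pool.Agent.Lib.MP_6b2d39_agHh
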