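import Pool.Agent.Lib.MP_6b2d39_agHg.Defs

/-!
THEOREM HG for all multiplicities `m j ≥ 1` (the library `agHg` needs `m j ≥ 100`) and the bound of
the dimension in the open degree: definitions.
-/

set_option autoImplicit false

namespace Pool.Agent.Lib.MP_6b2d39_agHh

/-- `g` classes of points, `k i` the class of the point `i`; the class `j` has at least `ν` points, of
multiplicity `m j` or `m j + 1` -/
structure Blk (ν σ E : ℝ) {h g : ℕ} (k : Fin h → Fin g) (m : Fin g → ℕ) (μ : Fin h → ℕ) :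
    Prop where
  two : ∀ i, μ i = m (k i) ∨ μ i = m (k i) + 1
  m1 : ∀ j, 1 ≤ m j
  n1 : ∀ j, ν ≤ (Finset.univ.filter fun i => k i = j).card
  ex : ∀ j, ((Finset.univ.filter fun i => k i = j).card : ℝ) * (m j + 1) ≤ E
  sh : ∀ j, σ * ((∑ i, (μ i + 1) ^ 2 : ℕ) : ℝ) ≤
    ((Finset.univ.filter fun i => k i = j).card : ℝ) * ((m j : ℝ) + 1) ^ 2

end Pool.Agent.Lib.MP_6b2d39_agHh
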