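import Pool.Agent.Lib.MP_6b2d39_agHh.MainH
import Pool.Agent.Lib.MP_6b2d39_agHl.ToGen
import Pool.Agent.Lib.MP_6b2d39_agHl.SmallA
import Pool.Agent.Lib.MP_6b2d39_agHl.Mass
import Pool.Agent.Lib.MP_6b2d39_agHy.MaxDeg

set_option autoImplicit false

namespace Pool.Agent.Lib.MP_6b2d39_agHh

open Pool.Agent.Lib.MP_6b2d39_agHl Pool.Agent.Lib.MP_6b2d39_ag Pool.Agent.Lib.MP_6b2d39_agCr
  Pool.Agent.Lib.MP_6b2d39_agNw Pool.Agent.Lib.MP_6b2d39_agHy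

private theorem hhe_eps {ν : ℕ} (hν : 2 ^ 25 ≤ ν) :
    0 < (ν : ℝ) ^ (-(1 / 25) : ℝ) ∧ (ν : ℝ) ^ (-(1 / 25) : ℝ) ≤ 1 / 2 := by
  have h1 : ((2 : ℝ) ^ 25) ≤ (ν : ℝ) := by exact_mod_cast hν
  have h0 : (0 : ℝ) < ν := lt_of_lt_of_le (by norm_num) h1
  refine ⟨Real.rpow_pos_of_pos h0 _, ?_⟩
  have h2 : (ν : ℝ) ^ (-(1 / 25) : ℝ) ≤ ((2 : ℝ) ^ 25) ^ (-(1 / 25) : ℝ) :=
    Real.rpow_le_rpow_of_nonpos (by norm_num) h1 (by norm_num)
  refine h2.trans (le_of_eq ?_)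
  rw [← Real.rpow_natCast, ← Real.rpow_mul (by norm_num)]
  have h3 : (((25 : ℕ) : ℝ) * (-(1 / 25))) = -1 := by norm_num
  rw [h3, Real.rpow_neg_one]
  norm_num

private theorem hhe_mass {h g : ℕ} {k : Fin h → Fin g} {m : Fin g → ℕ} {μ : Fin h → ℕ}
    (hμ : ∀ i, μ i = m (k i) ∨ μ i = m (k i) + 1) {j : Fin g} (hj : 1 ≤ m j) {c : ℕ}
    (hc : c ≤ (Finset.univ.filter fun i => k i = j).card) :
    (c : ℝ) ≤ ((∑ i, (μ i + 1).choose 2 : ℕ) : ℝ) := by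
  have h1 : ∀ i ∈ Finset.univ.filter (fun i => k i = j), 1 ≤ (μ i + 1).choose 2 := by
    intro i hi
    have hki : k i = j := (Finset.mem_filter.1 hi).2
    have h2 : 1 ≤ μ i := by
      rcases hμ i with h | h <;> rw [h, hki] <;> omega
    exact Nat.choose_pos (by omega)
  have h3 : (Finset.univ.filter fun i => k i = j).card ≤
      ∑ i ∈ Finset.univ.filter (fun i => k i = j), (μ i + 1).choose 2 := by
    have h4 := Finset.card_nsmul_le_sum (Finset.univ.filter fun i => k i = j)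
      (fun i => (μ i + 1).choose 2) 1 h1
    simpa using h4
  have h5 : ∑ i ∈ Finset.univ.filter (fun i => k i = j), (μ i + 1).choose 2 ≤
      ∑ i, (μ i + 1).choose 2 :=
    Finset.sum_le_sum_of_subset (Finset.filter_subset _ _)
  exact_mod_cast hc.trans (h3.trans h5)

private theorem hhe_zero {h N u : ℕ} {μ : Fin h → ℕ} (hu : u = 0)
    (H : EmpQ (dgm (tri N) N) (Sum.elim μ (fun _ => 1) : Fin h ⊕ Fin 0 → ℕ) Finset.univ) :
    EmpQ (dgm (tri N) N) (Sum.elim μ (fun _ => 1) : Fin h ⊕ Fin u → ℕ) Finset.univ := by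
  subst hu
  exact H

/-- HH17. as `emp_blocks` (`Hg/Main.lean`) with `main_h` -/
theorem emp_blocks_h : ∃ N0 : ℕ, ∀ ν : ℕ, N0 ≤ ν → ∀ (h g : ℕ) (k : Fin h → Fin g)
    (m : Fin g → ℕ) (μ : Fin h → ℕ),
    Blk ν ((ν : ℝ) ^ (-(1 / 200) : ℝ) / 3) (Real.exp (2 * (ν : ℝ) ^ (1 / 250 : ℝ))) k m μ →
    ∀ d : ℕ, (ν : ℝ) ^ (-(1 / 25) : ℝ) * d ≤ |((vd d μ : ℤ) : ℝ)| →
      EmpQ (dgm (tri (d + 1)) (d + 1))
        (Sum.elim μ (fun _ => 1) : Fin h ⊕ Fin (vd d μ).toNat → ℕ) Finset.univ := by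
  obtain ⟨R, hR⟩ := main_h
  refine ⟨max ⌈R⌉₊ (2 ^ 25), fun ν hν h g k m μ hB d hd => ?_⟩
  have hν1 : R ≤ ν := (Nat.le_ceil R).trans (by exact_mod_cast (le_max_left _ _).trans hν)
  have hν2 : 2 ^ 25 ≤ ν := (le_max_right _ _).trans hν
  obtain ⟨he0, he1⟩ := hhe_eps hν2
  rcases Nat.eq_zero_or_pos g with hg | hg
  · subst hg
    exact emp_one fun i => (k i).elim0
  have hM : (5050 : ℝ) ≤ ((∑ i, (μ i + 1).choose 2 : ℕ) : ℝ) := by
    have h1 : ν ≤ (Finset.univ.filter fun i => k i = ⟨0, hg⟩).card := by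
      exact_mod_cast hB.n1 ⟨0, hg⟩
    have h2 := hhe_mass (c := 5050) hB.two (hB.m1 ⟨0, hg⟩) (le_trans (by omega) h1)
    exact_mod_cast h2
  set M : ℝ := ((∑ i, (μ i + 1).choose 2 : ℕ) : ℝ) with hMd
  have hvd : ∀ d : ℕ, ((vd d μ : ℤ) : ℝ) = ((d : ℝ) + 1) * (d + 2) / 2 - M := fun d => vd_real μ
  set ε : ℝ := (ν : ℝ) ^ (-(1 / 25) : ℝ) with hε
  rcases lt_trichotomy (vd d μ) 0 with hv | hv | hv
  · have hvR : ((vd d μ : ℤ) : ℝ) < 0 := by exact_mod_cast hv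
    rw [abs_of_neg hvR] at hd
    obtain ⟨d', hdd, h1, h2⟩ := Pool.Agent.Lib.MP_6b2d39_agHy.max_deg μ he0.le
      (d := d) (by linarith)
    have hd1 : 1 ≤ d' := by
      rcases Nat.eq_zero_or_pos d' with h0 | h0
      · exfalso
        subst h0
        rw [hvd] at h2
        push_cast at h2
        nlinarith
      · exact h0
    have hd1R : (1 : ℝ) ≤ d' := by exact_mod_cast hd1
    refine hhe_zero (by omega) (emp_tri_mono (Nat.add_le_add_right hdd 1) ?_)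
    refine hR ν h g (d' + 1) 0 k m μ hν1 hg hB ((vd d' μ : ℤ) : ℝ) ?_ (Or.inl ⟨?_, ?_, rfl⟩)
    · rw [hvd, ← hMd]
      push_cast
      ring
    · rw [hvd] at h2 ⊢
      push_cast at h2 ⊢
      nlinarith
    · push_cast
      linarith
  · exfalso
    rw [hv] at hd
    simp only [Int.cast_zero, abs_zero] at hd
    have h1 : (d : ℝ) ≤ 0 := by
      by_contra hcon
      have h2 := mul_pos he0 (not_le.1 hcon)
      linarith
    have h2 : d = 0 := by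
      have : d ≤ 0 := by exact_mod_cast h1
      omega
    subst h2
    have h3 := hvd 0
    rw [hv] at h3
    push_cast at h3
    linarith
  · have hvR : (0 : ℝ) < ((vd d μ : ℤ) : ℝ) := by exact_mod_cast hv
    rw [abs_of_pos hvR] at hd
    have h4 : (((vd d μ).toNat : ℕ) : ℝ) = ((vd d μ : ℤ) : ℝ) := by
      have h5 : (((vd d μ).toNat : ℕ) : ℤ) = vd d μ := Int.toNat_of_nonneg hv.le
      exact_mod_cast h5
    refine hR ν h g (d + 1) (vd d μ).toNat k m μ hν1 hg hB ((vd d μ : ℤ) : ℝ) ?_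
      (Or.inr ⟨?_, h4.symm⟩)
    · rw [hvd, ← hMd]
      push_cast
      ring
    · push_cast
      linarith

end Pool.Agent.Lib.MP_6b2d39_agHh
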