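import Mathlib

set_option autoImplicit false

namespace Pool.Agent.Lib.MP_6b2d39_agHh

private theorem dh_small : ∃ N0 : ℕ, ∀ ν : ℕ, N0 ≤ ν → ∃ t : ℝ, 0 < t ∧ t ≤ 1 / 4 ∧
    (ν : ℝ) ^ (-(1 / 200) : ℝ) = t ∧ (ν : ℝ) ^ (-(1 / 25) : ℝ) = t ^ 8 ∧
    (ν : ℝ) * t ^ 200 = 1 := by
  have h1 : Filter.Tendsto (fun ν : ℕ => (ν : ℝ) ^ (-(1 / 200) : ℝ)) Filter.atTop (nhds 0) :=
    (tendsto_rpow_neg_atTop (by norm_num)).comp tendsto_natCast_atTop_atTop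
  have h2 := (h1.eventually (gt_mem_nhds (by norm_num : (0 : ℝ) < 1 / 4))).and
    (Filter.eventually_ge_atTop 1)
  obtain ⟨N0, hN⟩ := Filter.eventually_atTop.1 h2
  refine ⟨N0, fun ν hν => ?_⟩
  obtain ⟨h3, h4⟩ := hN ν hν
  have h5 : (0 : ℝ) < ν := by
    have : (1 : ℝ) ≤ ν := by exact_mod_cast h4
    linarith
  refine ⟨(ν : ℝ) ^ (-(1 / 200) : ℝ), Real.rpow_pos_of_pos h5 _, h3.le, rfl, ?_, ?_⟩
  · rw [← Real.rpow_natCast, ← Real.rpow_mul h5.le]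
    norm_num
  · rw [← Real.rpow_natCast, ← Real.rpow_mul h5.le]
    have h6 : (-(1 / 200) : ℝ) * ((200 : ℕ) : ℝ) = -1 := by norm_num
    rw [h6, Real.rpow_neg_one, mul_inv_cancel₀ h5.ne']

/-- HH20. the numbers of the open degree, one class with `n` points of multiplicity `m` or `m + 1`
(`ν ≤ n`) and the sum `S` of the `(μ i + 1) ^ 2`; `M` conditions, `2 M ≤ S`, `v = (d + 1) (d + 2) / 2 - M`,
`|v| < ε d`, `ε = ν ^ (- 1 / 25) ≤ 1 / 2`, so `(d + 1) (d + 2) ≤ 2 M + d ≤ S + d`, `d ^ 2 ≤ S`,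
`d ≤ ν ^ (1 / 400) √n (m + 1)`, and `n m ^ 2 ≤ 2 M ≤ (d + 2) ^ 2`, so `m + 2 ≤ 3 m ≤ ε d`. With
`K = ⌈(v + ε d) / (m + 1)⌉`: `K ≤ 2 ε d / (m + 1) + 1 ≤ n`, and
`K (m + 2) ≤ (v + ε d) (m + 2) / (m + 1) + m + 2 ≤ 3 / 2 (v + ε d) + ε d`. -/
theorem num_dh : ∃ N0 : ℕ, ∀ ν : ℕ, N0 ≤ ν → ∀ (n m d : ℕ) (M S v : ℝ), ν ≤ n → 1 ≤ m →
    2 * M ≤ S → (n : ℝ) * m ^ 2 ≤ 2 * M → (ν : ℝ) ^ (-(1 / 200) : ℝ) * S ≤ n * ((m : ℝ) + 1) ^ 2 →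
    v = ((d : ℝ) + 1) * (d + 2) / 2 - M → |v| < (ν : ℝ) ^ (-(1 / 25) : ℝ) * d →
    ∃ K : ℕ, K ≤ n ∧ v + (ν : ℝ) ^ (-(1 / 25) : ℝ) * d ≤ K * ((m : ℝ) + 1) ∧
      (K : ℝ) * (m + 2) ≤ max v 0 + 3 * ((ν : ℝ) ^ (-(1 / 25) : ℝ) * d) := by
  obtain ⟨N0, hN⟩ := dh_small
  refine ⟨N0, fun ν hν n m d M S v hn hm hMS hnM hS hv hvd => ?_⟩
  obtain ⟨t, ht0, ht4, ht1, ht8, ht200⟩ := hN ν hν
  rw [ht1] at hS
  rw [ht8] at hvd ⊢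
  have he0 : (0 : ℝ) < t ^ 8 := pow_pos ht0 8
  have he2 : t ^ 8 ≤ 1 / 2 := by
    have h1 : t ^ 8 ≤ (1 / 4 : ℝ) ^ 8 := pow_le_pow_left₀ ht0.le ht4 8
    norm_num at h1 ⊢
    linarith
  have he3 : 4 * (t ^ 8) ^ 2 ≤ t := by
    have h1 : t ^ 15 ≤ (1 / 4 : ℝ) ^ 15 := pow_le_pow_left₀ ht0.le ht4 15
    have h2 : 4 * t ^ 15 ≤ 1 := by
      norm_num at h1 ⊢
      linarith
    calc 4 * (t ^ 8) ^ 2 = 4 * t ^ 15 * t := by ring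
      _ ≤ 1 * t := mul_le_mul_of_nonneg_right h2 ht0.le
      _ = t := one_mul t
  have hν0 : (0 : ℝ) ≤ ν := Nat.cast_nonneg ν
  have he4 : 81 ≤ (ν : ℝ) * (t ^ 8) ^ 2 := by
    have h1 : t ^ 184 ≤ (1 / 4 : ℝ) ^ 184 := pow_le_pow_left₀ ht0.le ht4 184
    have h2 : (1 / 4 : ℝ) ^ 184 ≤ 1 / 81 := by
      have h3 : (1 / 4 : ℝ) ^ 184 ≤ (1 / 4 : ℝ) ^ 4 :=
        pow_le_pow_of_le_one (by norm_num) (by norm_num) (by norm_num)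
      norm_num
    have h3 : (ν : ℝ) * (t ^ 8) ^ 2 * t ^ 184 = 1 := by
      rw [← ht200]
      ring
    have h4 : (0 : ℝ) ≤ (ν : ℝ) * (t ^ 8) ^ 2 := by positivity
    have h5 : (ν : ℝ) * (t ^ 8) ^ 2 * t ^ 184 ≤ (ν : ℝ) * (t ^ 8) ^ 2 * (1 / 81) :=
      mul_le_mul_of_nonneg_left (h1.trans h2) h4
    linarith
  set e : ℝ := t ^ 8 with he
  have hd0 : (0 : ℝ) < d := by
    by_contra hcon
    have h1 : (d : ℝ) = 0 := le_antisymm (not_lt.1 hcon) (Nat.cast_nonneg d)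
    rw [h1, mul_zero] at hvd
    exact absurd hvd (not_lt.2 (abs_nonneg v))
  have hd1 : (1 : ℝ) ≤ d := by
    have h1 : 0 < d := by exact_mod_cast hd0
    exact_mod_cast h1
  have hm1 : (1 : ℝ) ≤ m := by exact_mod_cast hm
  have hn1 : (ν : ℝ) ≤ n := by exact_mod_cast hn
  obtain ⟨hv1, hv2⟩ := abs_lt.1 hvd
  have hed : e * d ≤ 1 / 2 * d := mul_le_mul_of_nonneg_right he2 hd0.le
  have F1 : (n : ℝ) * m ^ 2 ≤ ((d : ℝ) + 2) ^ 2 := by nlinarith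
  have hedpos : 0 < e * d := mul_pos he0 hd0
  have F2 : (m : ℝ) + 2 ≤ e * d := by
    have h1 : ((d : ℝ) + 2) ^ 2 ≤ 9 * d ^ 2 := by nlinarith
    have h2 : ((m : ℝ) + 2) ^ 2 ≤ 9 * m ^ 2 := by nlinarith
    have h3 : (ν : ℝ) * ((m : ℝ) + 2) ^ 2 ≤ n * ((m : ℝ) + 2) ^ 2 :=
      mul_le_mul_of_nonneg_right hn1 (sq_nonneg _)
    have h4 : (n : ℝ) * ((m : ℝ) + 2) ^ 2 ≤ n * (9 * m ^ 2) :=
      mul_le_mul_of_nonneg_left h2 (Nat.cast_nonneg n)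
    have h5 : 81 * (d : ℝ) ^ 2 ≤ (ν : ℝ) * e ^ 2 * d ^ 2 :=
      mul_le_mul_of_nonneg_right he4 (sq_nonneg _)
    have h6 : (ν : ℝ) * ((m : ℝ) + 2) ^ 2 ≤ ν * (e * d) ^ 2 := by nlinarith
    have h7 : (0 : ℝ) < ν := by
      rcases hν0.lt_or_eq with h8 | h8
      · exact h8
      · rw [← h8, zero_mul] at he4
        linarith
    have h8 : ((m : ℝ) + 2) ^ 2 ≤ (e * d) ^ 2 := le_of_mul_le_mul_left h6 h7
    exact le_of_sq_le_sq h8 hedpos.le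
  have F3 : 2 * (e * d) ≤ n * ((m : ℝ) + 1) := by
    have h1 : (d : ℝ) ^ 2 ≤ S := by nlinarith
    have h2 : t * (d : ℝ) ^ 2 ≤ t * S := mul_le_mul_of_nonneg_left h1 ht0.le
    have h3 : 4 * e ^ 2 * (d : ℝ) ^ 2 ≤ t * (d : ℝ) ^ 2 :=
      mul_le_mul_of_nonneg_right he3 (sq_nonneg _)
    have h4 : (1 : ℝ) ≤ n := by
      have h5 : 0 < n := by
        rcases Nat.eq_zero_or_pos n with h6 | h6
        · subst h6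
          rw [Nat.cast_zero, zero_mul] at hS
          have h7 : 0 < t * (d : ℝ) ^ 2 := by positivity
          linarith
        · exact h6
      exact_mod_cast h5
    have h5 : (n : ℝ) * ((m : ℝ) + 1) ^ 2 ≤ (n * ((m : ℝ) + 1)) ^ 2 := by
      have h6 : (n : ℝ) ≤ (n : ℝ) ^ 2 := by nlinarith
      calc (n : ℝ) * ((m : ℝ) + 1) ^ 2 ≤ (n : ℝ) ^ 2 * ((m : ℝ) + 1) ^ 2 :=
            mul_le_mul_of_nonneg_right h6 (sq_nonneg _)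
        _ = (n * ((m : ℝ) + 1)) ^ 2 := by ring
    have h6 : (2 * (e * d)) ^ 2 ≤ (n * ((m : ℝ) + 1)) ^ 2 := by
      calc (2 * (e * d)) ^ 2 = 4 * e ^ 2 * (d : ℝ) ^ 2 := by ring
        _ ≤ (n * ((m : ℝ) + 1)) ^ 2 := by linarith
    exact le_of_sq_le_sq h6 (by positivity)
  have hm0 : (0 : ℝ) < (m : ℝ) + 1 := by linarith
  have hpos : 0 ≤ v + e * d := by linarith
  refine ⟨⌈(v + e * d) / ((m : ℝ) + 1)⌉₊, ?_, ?_, ?_⟩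
  · rw [Nat.ceil_le, div_le_iff₀ hm0]
    linarith
  · exact (div_le_iff₀ hm0).1 (Nat.le_ceil _)
  · have h1 := (Nat.ceil_lt_add_one (div_nonneg hpos hm0.le)).le
    have h2 : (v + e * d) / ((m : ℝ) + 1) * ((m : ℝ) + 1) = v + e * d :=
      div_mul_cancel₀ _ hm0.ne'
    have h3 : (v + e * d) / ((m : ℝ) + 1) ≤ (v + e * d) / 2 :=
      div_le_div_of_nonneg_left hpos (by norm_num) (by linarith)
    have h4 : (⌈(v + e * d) / ((m : ℝ) + 1)⌉₊ : ℝ) * ((m : ℝ) + 1) ≤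
        ((v + e * d) / ((m : ℝ) + 1) + 1) * ((m : ℝ) + 1) :=
      mul_le_mul_of_nonneg_right h1 hm0.le
    have h5 := le_max_left v 0
    have h6 := le_max_right v 0
    have h7 : (⌈(v + e * d) / ((m : ℝ) + 1)⌉₊ : ℝ) * ((m : ℝ) + 2) =
        (⌈(v + e * d) / ((m : ℝ) + 1)⌉₊ : ℝ) * ((m : ℝ) + 1) +
          (⌈(v + e * d) / ((m : ℝ) + 1)⌉₊ : ℝ) := by ring
    rw [h7]
    rw [add_mul, h2, one_mul] at h4
    linarith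

end Pool.Agent.Lib.MP_6b2d39_agHh
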