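import Pool.Agent.Lib.MP_6b2d39_agHh.Defs
import Pool.Agent.Lib.MP_6b2d39_agCr.Defs

set_option autoImplicit false

namespace Pool.Agent.Lib.MP_6b2d39_agHh

open Pool.Agent.Lib.MP_6b2d39_agCr

/-- HH18. as `raise` (`Hz/Raise.lean`) in the class `j`: raise `K` multiplicities of the class by one,
first the ones equal to `m j` -/
theorem raise_h {h g d K : ℕ} {k : Fin h → Fin g} {m : Fin g → ℕ} {μ : Fin h → ℕ} (j : Fin g)
    (hμ : ∀ i, μ i = m (k i) ∨ μ i = m (k i) + 1)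
    (hK : K ≤ (Finset.univ.filter fun i => k i = j).card) :
    ∃ (m' : Fin g → ℕ) (μ' : Fin h → ℕ), (∀ l, m l ≤ m' l ∧ m' l ≤ m l + 1) ∧
      (∀ i, μ' i = m' (k i) ∨ μ' i = m' (k i) + 1) ∧ (∀ i, μ i ≤ μ' i ∧ μ' i ≤ μ i + 1) ∧
      (K : ℤ) * (m j + 1) ≤ vd d μ - vd d μ' ∧ vd d μ - vd d μ' ≤ (K : ℤ) * (m j + 2) := by
  classical
  obtain ⟨C, hC⟩ : ∃ C : Finset (Fin h), C = Finset.univ.filter fun i => k i = j := ⟨_, rfl⟩
  rw [← hC] at hK
  have hCm : ∀ i, i ∈ C ↔ k i = j := fun i => by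
    rw [hC, Finset.mem_filter]
    exact ⟨fun h => h.2, fun h => ⟨Finset.mem_univ _, h⟩⟩
  obtain ⟨B, hBC, hBc, hB⟩ : ∃ B : Finset (Fin h), B ⊆ C ∧ B.card = K ∧
      (B ⊆ C.filter (fun i => μ i = m j) ∨ C.filter (fun i => μ i = m j) ⊆ B) := by
    rcases le_total K (C.filter (fun i => μ i = m j)).card with h | h
    · obtain ⟨B, hB, hc⟩ := Finset.exists_subset_card_eq h
      exact ⟨B, hB.trans (Finset.filter_subset _ _), hc, Or.inl hB⟩
    · obtain ⟨B, hB, hB', hc⟩ := Finset.exists_subsuperset_card_eq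
        (Finset.filter_subset (fun i => μ i = m j) C) h hK
      exact ⟨B, hB', hc, Or.inr hB⟩
  have hdiff : vd d μ - vd d (fun i => μ i + if i ∈ B then 1 else 0) =
      ∑ i ∈ B, ((μ i : ℤ) + 1) := by
    have h1 : ∀ i, (((μ i + if i ∈ B then 1 else 0) + 1).choose 2 : ℤ) =
        ((μ i + 1).choose 2 : ℤ) + if i ∈ B then ((μ i : ℤ) + 1) else 0 := by
      intro i
      by_cases hi : i ∈ B
      · rw [if_pos hi, if_pos hi, Nat.choose_succ_succ' (μ i + 1) 1, Nat.choose_one_right]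
        push_cast
        ring
      · rw [if_neg hi, if_neg hi, add_zero, add_zero]
    simp only [vd]
    rw [Finset.sum_congr rfl fun i _ => h1 i, Finset.sum_add_distrib, Finset.sum_ite_mem,
      Finset.univ_inter]
    ring
  have hμB : ∀ i ∈ B, μ i = m j ∨ μ i = m j + 1 := by
    intro i hi
    have h1 := hμ i
    rw [(hCm i).1 (hBC hi)] at h1
    exact h1
  obtain ⟨t, ht⟩ : ∃ t : ℕ, t = if B ⊆ C.filter (fun i => μ i = m j) then 0 else 1 := ⟨_, rfl⟩
  have ht1 : t ≤ 1 := by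
    rw [ht]
    split_ifs <;> omega
  refine ⟨fun l => m l + if l = j then t else 0, fun i => μ i + if i ∈ B then 1 else 0,
    ?_, ?_, ?_, ?_, ?_⟩
  · intro l
    constructor
    · exact Nat.le_add_right _ _
    · change m l + (if l = j then t else 0) ≤ m l + 1
      split_ifs <;> omega
  · intro i
    change μ i + (if i ∈ B then 1 else 0) = m (k i) + (if k i = j then t else 0) ∨
      μ i + (if i ∈ B then 1 else 0) = m (k i) + (if k i = j then t else 0) + 1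
    have h0 := hμ i
    by_cases hj : k i = j
    · rw [if_pos hj]
      rw [hj] at h0 ⊢
      by_cases h : B ⊆ C.filter (fun i => μ i = m j)
      · rw [if_pos h] at ht
        subst ht
        by_cases hi : i ∈ B
        · have h2 := (Finset.mem_filter.1 (h hi)).2
          rw [if_pos hi]
          omega
        · rw [if_neg hi]
          exact h0
      · rw [if_neg h] at ht
        subst ht
        have h3 := hB.resolve_left h
        by_cases hi : i ∈ B
        · rw [if_pos hi]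
          omega
        · have h5 : μ i ≠ m j := fun h5 => hi (h3 (Finset.mem_filter.2 ⟨(hCm i).2 hj, h5⟩))
          rw [if_neg hi]
          omega
    · have hi : i ∉ B := fun hi => hj ((hCm i).1 (hBC hi))
      rw [if_neg hj, if_neg hi]
      exact h0
  · intro i
    change μ i ≤ μ i + (if i ∈ B then 1 else 0) ∧ μ i + (if i ∈ B then 1 else 0) ≤ μ i + 1
    split_ifs <;> omega
  · rw [hdiff, ← hBc, ← nsmul_eq_mul]
    refine Finset.card_nsmul_le_sum _ _ _ fun i hi => ?_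
    rcases hμB i hi with h4 | h4 <;> rw [h4] <;> push_cast <;> omega
  · rw [hdiff, ← hBc, ← nsmul_eq_mul]
    refine Finset.sum_le_card_nsmul _ _ _ fun i hi => ?_
    rcases hμB i hi with h4 | h4 <;> rw [h4] <;> push_cast <;> omega

/-- HH19. the raised points satisfy the relaxed conditions (`(μ + 2) ^ 2 ≤ 3 (μ + 1) ^ 2` for
`1 ≤ μ`; `n (m + 2) ≤ 2 n (m + 1)`, `2 ≤ E`) -/
theorem blk_raise {ν σ E : ℝ} {h g : ℕ} {k : Fin h → Fin g} {m m' : Fin g → ℕ}
    {μ μ' : Fin h → ℕ} (hσ : 0 ≤ σ) (hE : 2 ≤ E) (hb : Blk ν σ E k m μ)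
    (hm : ∀ l, m l ≤ m' l ∧ m' l ≤ m l + 1)
    (h2 : ∀ i, μ' i = m' (k i) ∨ μ' i = m' (k i) + 1) (hμ : ∀ i, μ i ≤ μ' i ∧ μ' i ≤ μ i + 1) :
    Blk ν (σ / 3) (E ^ 2) k m' μ' := by
  have hmR : ∀ l, (m l : ℝ) ≤ m' l ∧ (m' l : ℝ) ≤ m l + 1 := fun l =>
    ⟨by exact_mod_cast (hm l).1, by exact_mod_cast (hm l).2⟩
  refine ⟨h2, fun j => (hb.m1 j).trans (hm j).1, hb.n1, fun j => ?_, fun j => ?_⟩
  · have h3 := hb.ex j
    have h4 : (0 : ℝ) ≤ ((Finset.univ.filter fun i => k i = j).card : ℝ) := Nat.cast_nonneg _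
    have h5 := (hmR j).2
    have h6 : (0 : ℝ) ≤ m j := Nat.cast_nonneg _
    have h7 : ((Finset.univ.filter fun i => k i = j).card : ℝ) * (m' j + 1) ≤
        ((Finset.univ.filter fun i => k i = j).card : ℝ) * (2 * (m j + 1)) :=
      mul_le_mul_of_nonneg_left (by linarith) h4
    nlinarith
  · have h3 := hb.sh j
    have h4 : (0 : ℝ) ≤ ((Finset.univ.filter fun i => k i = j).card : ℝ) := Nat.cast_nonneg _
    have h5 := (hmR j).1
    have h6 : (0 : ℝ) ≤ m j := Nat.cast_nonneg _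
    have h7 : (∑ i, (μ' i + 1) ^ 2 : ℕ) ≤ 3 * (∑ i, (μ i + 1) ^ 2 : ℕ) := by
      rw [Finset.mul_sum]
      refine Finset.sum_le_sum fun i _ => ?_
      have h8 : 1 ≤ μ i := by
        have h9 := hb.m1 (k i)
        rcases hb.two i with h | h <;> omega
      have h9 := (hμ i).2
      nlinarith
    have h8 : ((∑ i, (μ' i + 1) ^ 2 : ℕ) : ℝ) ≤ 3 * ((∑ i, (μ i + 1) ^ 2 : ℕ) : ℝ) := by
      exact_mod_cast h7
    have h9 : ((Finset.univ.filter fun i => k i = j).card : ℝ) * ((m j : ℝ) + 1) ^ 2 ≤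
        ((Finset.univ.filter fun i => k i = j).card : ℝ) * ((m' j : ℝ) + 1) ^ 2 :=
      mul_le_mul_of_nonneg_left (pow_le_pow_left₀ (by linarith) (by linarith) 2) h4
    have h10 : σ / 3 * ((∑ i, (μ' i + 1) ^ 2 : ℕ) : ℝ) ≤
        σ / 3 * (3 * ((∑ i, (μ i + 1) ^ 2 : ℕ) : ℝ)) :=
      mul_le_mul_of_nonneg_left h8 (by linarith)
    have h11 : σ / 3 * (3 * ((∑ i, (μ i + 1) ^ 2 : ℕ) : ℝ)) =
        σ * ((∑ i, (μ i + 1) ^ 2 : ℕ) : ℝ) := by ring
    linarith

end Pool.Agent.Lib.MP_6b2d39_agHh
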