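import Pool.Agent.Lib.MP_6b2d39_agHh.EmpH
import Pool.Agent.Lib.MP_6b2d39_agHh.RaiseH
import Pool.Agent.Lib.MP_6b2d39_agHh.NumDH
import Pool.Agent.Lib.MP_6b2d39_agHx.Main
import Pool.Agent.Lib.MP_6b2d39_agHz.RelB

set_option autoImplicit false

namespace Pool.Agent.Lib.MP_6b2d39_agHh

open Pool.Agent.Lib.MP_6b2d39_agHl Pool.Agent.Lib.MP_6b2d39_ag Pool.Agent.Lib.MP_6b2d39_agCr
  Pool.Agent.Lib.MP_6b2d39_agNw Pool.Agent.Lib.MP_6b2d39_agHx Pool.Agent.Lib.MP_6b2d39_agHz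
  Pool.Agent.Lib.MP_6b2d39_agHg

private theorem hhm_eps {ν : ℕ} (hν : 2 ^ 25 ≤ ν) :
    0 < (ν : ℝ) ^ (-(1 / 25) : ℝ) ∧ (ν : ℝ) ^ (-(1 / 25) : ℝ) ≤ 1 / 2 := by
  have h1 : ((2 : ℝ) ^ 25) ≤ (ν : ℝ) := by exact_mod_cast hν
  have h0 : (0 : ℝ) < ν := lt_of_lt_of_le (by norm_num) h1
  refine ⟨Real.rpow_pos_of_pos h0 _, ?_⟩
  have h2 : (ν : ℝ) ^ (-(1 / 25) : ℝ) ≤ ((2 : ℝ) ^ 25) ^ (-(1 / 25) : ℝ) :=
    Real.rpow_le_rpow_of_nonpos (by norm_num) h1 (by norm_num)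
  refine h2.trans (le_of_eq ?_)
  rw [← Real.rpow_natCast, ← Real.rpow_mul (by norm_num)]
  have h3 : (((25 : ℕ) : ℝ) * (-(1 / 25))) = -1 := by norm_num
  rw [h3, Real.rpow_neg_one]
  norm_num

private theorem hhm_exp {ν : ℕ} (hν : 1 ≤ ν) :
    2 ≤ Real.exp ((ν : ℝ) ^ (1 / 250 : ℝ)) ∧
      Real.exp ((ν : ℝ) ^ (1 / 250 : ℝ)) ^ 2 = Real.exp (2 * (ν : ℝ) ^ (1 / 250 : ℝ)) := by
  have h1 : (1 : ℝ) ≤ ν := by exact_mod_cast hν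
  have h2 : (1 : ℝ) ≤ (ν : ℝ) ^ (1 / 250 : ℝ) := Real.one_le_rpow h1 (by norm_num)
  refine ⟨?_, ?_⟩
  · have h3 := Real.add_one_le_exp ((ν : ℝ) ^ (1 / 250 : ℝ))
    linarith
  · rw [← Real.exp_nat_mul]
    norm_num

private theorem hhm_blk {ν h g : ℕ} {k : Fin h → Fin g} {m : Fin g → ℕ} {μ : Fin h → ℕ}
    (hμ : ∀ i, μ i = m (k i) ∨ μ i = m (k i) + 1)
    (hcl : ∀ j, 1 ≤ m j ∧ ν ≤ (Finset.univ.filter fun i => k i = j).card ∧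
      ((Finset.univ.filter fun i => k i = j).card : ℝ) * (m j + 1) ≤
        Real.exp ((ν : ℝ) ^ (1 / 250 : ℝ)) ∧
      (ν : ℝ) ^ (-(1 / 200) : ℝ) * ((∑ i, (μ i + 1) ^ 2 : ℕ) : ℝ) ≤
        ((Finset.univ.filter fun i => k i = j).card : ℝ) * ((m j : ℝ) + 1) ^ 2) :
    Blk ν ((ν : ℝ) ^ (-(1 / 200) : ℝ)) (Real.exp ((ν : ℝ) ^ (1 / 250 : ℝ))) k m μ :=
  ⟨hμ, fun j => (hcl j).1, fun j => by exact_mod_cast (hcl j).2.1, fun j => (hcl j).2.2.1,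
    fun j => (hcl j).2.2.2⟩

private theorem hhm_emp {ν h g : ℕ} {k : Fin h → Fin g} {m m' : Fin g → ℕ} {μ μ' : Fin h → ℕ}
    (hν : 1 ≤ ν)
    (hb : Blk ν ((ν : ℝ) ^ (-(1 / 200) : ℝ)) (Real.exp ((ν : ℝ) ^ (1 / 250 : ℝ))) k m μ)
    (hm : ∀ l, m l ≤ m' l ∧ m' l ≤ m l + 1)
    (h2 : ∀ i, μ' i = m' (k i) ∨ μ' i = m' (k i) + 1) (hμ : ∀ i, μ i ≤ μ' i ∧ μ' i ≤ μ i + 1) :
    Blk ν ((ν : ℝ) ^ (-(1 / 200) : ℝ) / 3) (Real.exp (2 * (ν : ℝ) ^ (1 / 250 : ℝ))) k m' μ' := by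
  obtain ⟨h3, h4⟩ := hhm_exp hν
  have h5 := blk_raise (Real.rpow_nonneg (Nat.cast_nonneg ν) (-(1 / 200) : ℝ)) h3 hb hm h2 hμ
  rwa [h4] at h5

/-- THEOREM HH (1) (HH21). as `blocks_g` (`Hg/Main.lean`): `emp_blocks_h`, `unique_degree`,
`ν ^ (- 1 / 25) ≤ 1 / 2`, `general_of_emp` -/
theorem blocks_h : ∃ N0 : ℕ, ∀ ν : ℕ, N0 ≤ ν → ∀ (h g : ℕ) (k : Fin h → Fin g)
    (m : Fin g → ℕ) (μ : Fin h → ℕ), (∀ i, μ i = m (k i) ∨ μ i = m (k i) + 1) →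
    (∀ j, 1 ≤ m j ∧ ν ≤ (Finset.univ.filter fun i => k i = j).card ∧
      ((Finset.univ.filter fun i => k i = j).card : ℝ) * (m j + 1) ≤
        Real.exp ((ν : ℝ) ^ (1 / 250 : ℝ)) ∧
      (ν : ℝ) ^ (-(1 / 200) : ℝ) * ((∑ i, (μ i + 1) ^ 2 : ℕ) : ℝ) ≤
        ((Finset.univ.filter fun i => k i = j).card : ℝ) * ((m j : ℝ) + 1) ^ 2) →
    ∃ d0 : ℕ, ∀ d : ℕ, d ≠ d0 ∨ (ν : ℝ) ^ (-(1 / 25) : ℝ) * d ≤ |((vd d μ : ℤ) : ℝ)| →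
      General (fun P => (Module.finrank ℂ (curves d μ P) : ℤ) = max (vd d μ) 0) := by
  obtain ⟨N1, h1⟩ := emp_blocks_h
  refine ⟨max N1 (2 ^ 25), fun ν hν h g k m μ hμ hcl => ?_⟩
  have hν2 : 2 ^ 25 ≤ ν := (le_max_right _ _).trans hν
  obtain ⟨d0, hd0⟩ := unique_degree μ
  refine ⟨d0, fun d hd => general_of_emp ?_⟩
  refine h1 ν ((le_max_left _ _).trans hν) h g k m μ
    (hhm_emp (le_trans (by norm_num) hν2) (hhm_blk hμ hcl) (fun l => ⟨le_rfl, Nat.le_succ _⟩) hμ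
      (fun i => ⟨le_rfl, Nat.le_succ _⟩)) d ?_
  rcases hd with hd | hd
  · exact (mul_le_mul_of_nonneg_right (hhm_eps hν2).2 (Nat.cast_nonneg d)).trans (hd0 d hd)
  · exact hd

private theorem hhm_two {h : ℕ} (μ : Fin h → ℕ) :
    2 * ((∑ i, (μ i + 1).choose 2 : ℕ) : ℝ) ≤ ((∑ i, (μ i + 1) ^ 2 : ℕ) : ℝ) := by
  have h1 : 2 * ∑ i, (μ i + 1).choose 2 ≤ ∑ i, (μ i + 1) ^ 2 := by
    rw [Finset.mul_sum]
    refine Finset.sum_le_sum fun i _ => ?_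
    have h2 := Nat.choose_two_right (μ i + 1)
    have h3 : 2 * ((μ i + 1) * (μ i + 1 - 1) / 2) ≤ (μ i + 1) * (μ i + 1 - 1) :=
      Nat.mul_div_le _ _
    rw [h2]
    refine h3.trans ?_
    rw [sq]
    exact Nat.mul_le_mul_left _ (Nat.sub_le _ _)
  exact_mod_cast h1

private theorem hhm_cls {h g : ℕ} {k : Fin h → Fin g} {m : Fin g → ℕ} {μ : Fin h → ℕ}
    (hμ : ∀ i, μ i = m (k i) ∨ μ i = m (k i) + 1) (j : Fin g) :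
    ((Finset.univ.filter fun i => k i = j).card : ℝ) * (m j : ℝ) ^ 2 ≤
      2 * ((∑ i, (μ i + 1).choose 2 : ℕ) : ℝ) := by
  have h1 : ∀ i ∈ Finset.univ.filter (fun i => k i = j), m j ^ 2 ≤ 2 * (μ i + 1).choose 2 := by
    intro i hi
    have hki : k i = j := (Finset.mem_filter.1 hi).2
    have h2 : m j ≤ μ i := by
      rcases hμ i with h | h <;> rw [h, hki] <;> omega
    have h4 : 2 * (μ i + 1).choose 2 = (μ i + 1) * μ i := by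
      rw [Nat.choose_two_right, Nat.add_sub_cancel]
      exact Nat.mul_div_cancel' (by rw [mul_comm]; exact (Nat.even_mul_succ_self (μ i)).two_dvd)
    rw [h4]
    nlinarith
  have h3 := Finset.card_nsmul_le_sum (Finset.univ.filter fun i => k i = j)
      (fun i => 2 * (μ i + 1).choose 2) (m j ^ 2) h1
  have h5 : ∑ i ∈ Finset.univ.filter (fun i => k i = j), 2 * (μ i + 1).choose 2 ≤
      ∑ i, 2 * (μ i + 1).choose 2 :=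
    Finset.sum_le_sum_of_subset (Finset.filter_subset _ _)
  have h6 := h3.trans h5
  rw [smul_eq_mul, ← Finset.mul_sum] at h6
  exact_mod_cast h6

private theorem hhm_exact {h d : ℕ} {μ : Fin h → ℕ} {a : ℝ} (ha : 0 ≤ a)
    (H : General (fun P => (Module.finrank ℂ (curves d μ P) : ℤ) = max (vd d μ) 0)) :
    General (fun P => max (vd d μ) 0 ≤ (Module.finrank ℂ (curves d μ P) : ℤ) ∧
      (Module.finrank ℂ (curves d μ P) : ℝ) ≤ max ((vd d μ : ℤ) : ℝ) 0 + a) := by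
  refine H.mono fun P hP => ⟨hP.ge, ?_⟩
  have h3 : (Module.finrank ℂ (curves d μ P) : ℝ) = max ((vd d μ : ℤ) : ℝ) 0 := by
    have h4 : ((Module.finrank ℂ (curves d μ P) : ℤ) : ℝ) = ((max (vd d μ) 0 : ℤ) : ℝ) := by
      rw [hP]
    rwa [Int.cast_natCast, Int.cast_max, Int.cast_zero] at h4
  rw [h3]
  linarith

/-- THEOREM HH (2) (HH22). as `dim_z` (`Hz/DimZ.lean`): if `ν ^ (- 1 / 25) d ≤ |vd d μ|` (or `g = 0`),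
then `emp_blocks_h`; otherwise `num_dh` for the class `0`, `raise_h`, `blk_raise`, `emp_blocks_h` for the
raised multiplicities (`vd d μ' ≤ - ν ^ (- 1 / 25) d`), `dim_rel`. -/
theorem dim_h : ∃ N0 : ℕ, ∀ ν : ℕ, N0 ≤ ν → ∀ (h g : ℕ) (k : Fin h → Fin g)
    (m : Fin g → ℕ) (μ : Fin h → ℕ), (∀ i, μ i = m (k i) ∨ μ i = m (k i) + 1) →
    (∀ j, 1 ≤ m j ∧ ν ≤ (Finset.univ.filter fun i => k i = j).card ∧
      ((Finset.univ.filter fun i => k i = j).card : ℝ) * (m j + 1) ≤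
        Real.exp ((ν : ℝ) ^ (1 / 250 : ℝ)) ∧
      (ν : ℝ) ^ (-(1 / 200) : ℝ) * ((∑ i, (μ i + 1) ^ 2 : ℕ) : ℝ) ≤
        ((Finset.univ.filter fun i => k i = j).card : ℝ) * ((m j : ℝ) + 1) ^ 2) →
    ∀ d : ℕ, General (fun P => max (vd d μ) 0 ≤ (Module.finrank ℂ (curves d μ P) : ℤ) ∧
      (Module.finrank ℂ (curves d μ P) : ℝ) ≤
        max ((vd d μ : ℤ) : ℝ) 0 + 3 * (ν : ℝ) ^ (-(1 / 25) : ℝ) * d) := by
  obtain ⟨N1, h1⟩ := emp_blocks_h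
  obtain ⟨N2, h2⟩ := num_dh
  refine ⟨max N1 (max N2 (2 ^ 25)), fun ν hν h g k m μ hμ hcl d => ?_⟩
  have hν1 : N1 ≤ ν := (le_max_left _ _).trans hν
  have hν2 : N2 ≤ ν := ((le_max_left _ _).trans (le_max_right _ _)).trans hν
  have hν3 : 2 ^ 25 ≤ ν := ((le_max_right _ _).trans (le_max_right _ _)).trans hν
  have hν4 : 1 ≤ ν := le_trans (by norm_num) hν3
  obtain ⟨he0, he1⟩ := hhm_eps hν3
  have hd0 : (0 : ℝ) ≤ d := Nat.cast_nonneg d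
  have ha : 0 ≤ 3 * (ν : ℝ) ^ (-(1 / 25) : ℝ) * d := by positivity
  have hb := hhm_blk hμ hcl
  rcases Nat.eq_zero_or_pos g with hg | hg
  · subst hg
    exact hhm_exact ha (general_of_emp (emp_one fun i => (k i).elim0))
  by_cases hv : (ν : ℝ) ^ (-(1 / 25) : ℝ) * d ≤ |((vd d μ : ℤ) : ℝ)|
  · exact hhm_exact ha (general_of_emp (h1 ν hν1 h g k m μ
      (hhm_emp hν4 hb (fun l => ⟨le_rfl, Nat.le_succ _⟩) hμ (fun i => ⟨le_rfl, Nat.le_succ _⟩))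
      d hv))
  rw [not_le] at hv
  obtain ⟨K, hKn, hKlo, hKup⟩ := h2 ν hν2 (Finset.univ.filter fun i => k i = ⟨0, hg⟩).card
    (m ⟨0, hg⟩) d ((∑ i, (μ i + 1).choose 2 : ℕ) : ℝ) ((∑ i, (μ i + 1) ^ 2 : ℕ) : ℝ)
    ((vd d μ : ℤ) : ℝ) (hcl ⟨0, hg⟩).2.1 (hcl ⟨0, hg⟩).1 (hhm_two μ) (hhm_cls hμ _)
    (hcl ⟨0, hg⟩).2.2.2 (vd_real μ) hv
  obtain ⟨m', μ', hm', hμ', hle, hlo, hup⟩ := raise_h (d := d) ⟨0, hg⟩ hμ hKn
  have hlo' : (K : ℝ) * ((m ⟨0, hg⟩ : ℝ) + 1) ≤ ((vd d μ : ℤ) : ℝ) - ((vd d μ' : ℤ) : ℝ) := by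
    exact_mod_cast hlo
  have hup' : ((vd d μ : ℤ) : ℝ) - ((vd d μ' : ℤ) : ℝ) ≤ (K : ℝ) * ((m ⟨0, hg⟩ : ℝ) + 2) := by
    exact_mod_cast hup
  have hv' : ((vd d μ' : ℤ) : ℝ) ≤ -((ν : ℝ) ^ (-(1 / 25) : ℝ) * d) := by linarith
  have hed : 0 ≤ (ν : ℝ) ^ (-(1 / 25) : ℝ) * d := mul_nonneg he0.le hd0
  have hgen := general_of_emp (h1 ν hν1 h g k m' μ' (hhm_emp hν4 hb hm' hμ' hle) d (by
    rw [abs_of_nonpos (by linarith)]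
    linarith))
  have hν0 : vd d μ' ≤ 0 := by
    have h3 : ((vd d μ' : ℤ) : ℝ) ≤ ((0 : ℤ) : ℝ) := by
      rw [Int.cast_zero]
      linarith
    exact_mod_cast h3
  refine (hgen.and (general_coord_ne 2)).mono ?_
  rintro P ⟨hP, hP2⟩
  refine ⟨max_le (vd_le_finrank d μ hP2) (Int.natCast_nonneg _), ?_⟩
  rw [max_eq_right hν0] at hP
  have h3 := dim_rel d μ μ' (fun i => (hle i).1) hP2
  rw [hP, zero_add] at h3
  have h4 : (Module.finrank ℂ (curves d μ P) : ℝ) ≤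
      ((vd d μ : ℤ) : ℝ) - ((vd d μ' : ℤ) : ℝ) := by
    exact_mod_cast h3
  linarith

end Pool.Agent.Lib.MP_6b2d39_agHh
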