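import Mathlib

set_option autoImplicit false

namespace Pool.Agent.Lib.MP_6b2d39_agHh

variable {h g : ℕ} {k : Fin h → Fin g} {m : Fin g → ℕ} {μ : Fin h → ℕ} {σ : ℝ}

private theorem shrh_c (a : ℕ) : (((a + 1).choose 2 : ℕ) : ℝ) = ((a : ℝ) + 1) * a / 2 := by
  rw [Nat.cast_choose_two]
  push_cast
  ring

/-- HH15. as `share_m` (`Hg/Share.lean`): `m + 1 ≤ 2 m` -/
theorem share_mh (hμ : ∀ i, μ i = m (k i) ∨ μ i = m (k i) + 1) (hσ : 0 < σ)
    (hm : ∀ j, 1 ≤ m j)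
    (hs : ∀ j, σ * ((∑ i, (μ i + 1) ^ 2 : ℕ) : ℝ) ≤
      ((Finset.univ.filter fun i => k i = j).card : ℝ) * ((m j : ℝ) + 1) ^ 2) (j : Fin g)
    {n M Mj : ℝ} (hn : n = (Finset.univ.filter fun i => k i = j).card)
    (hM : M = ((∑ i, (μ i + 1).choose 2 : ℕ) : ℝ))
    (hMj : Mj = ((∑ i ∈ Finset.univ.filter (fun i => k i = j), (μ i + 1).choose 2 : ℕ) : ℝ)) :
    n * (m j : ℝ) ^ 2 / 2 ≤ Mj ∧ Mj ≤ n * (((m j : ℝ) + 1) * (m j + 2)) / 2 ∧
      1 / 2 * (σ * M) ≤ Mj ∧ Mj ≤ M := by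
  have hM' : M = ∑ i, ((μ i : ℝ) + 1) * μ i / 2 := by
    rw [hM, Nat.cast_sum]
    exact Finset.sum_congr rfl fun i _ => shrh_c _
  have hMj' : Mj = ∑ i ∈ Finset.univ.filter (fun i => k i = j), ((μ i : ℝ) + 1) * μ i / 2 := by
    rw [hMj, Nat.cast_sum]
    exact Finset.sum_congr rfl fun i _ => shrh_c _
  have hmj : (1 : ℝ) ≤ m j := by exact_mod_cast hm j
  have hn0 : 0 ≤ n := by
    rw [hn]
    exact Nat.cast_nonneg _
  have hμj : ∀ i ∈ Finset.univ.filter (fun i => k i = j), (m j : ℝ) ≤ μ i ∧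
      (μ i : ℝ) ≤ m j + 1 := by
    intro i hi
    have h1 := (Finset.mem_filter.1 hi).2
    have h2 := hμ i
    rw [h1] at h2
    constructor
    · have : m j ≤ μ i := by omega
      exact_mod_cast this
    · have : μ i ≤ m j + 1 := by omega
      exact_mod_cast this
  have hlow : n * (((m j : ℝ) + 1) * m j / 2) ≤ Mj := by
    rw [hMj', hn, ← nsmul_eq_mul]
    refine Finset.card_nsmul_le_sum _ _ _ fun i hi => ?_
    obtain ⟨h1, -⟩ := hμj i hi
    have h2 : ((m j : ℝ) + 1) * m j ≤ ((μ i : ℝ) + 1) * μ i :=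
      mul_le_mul (by linarith) h1 (by linarith) (by linarith)
    linarith
  have hup : Mj ≤ n * (((m j : ℝ) + 1) * (m j + 2) / 2) := by
    rw [hMj', hn, ← nsmul_eq_mul]
    refine Finset.sum_le_card_nsmul _ _ _ fun i hi => ?_
    obtain ⟨h1, h3⟩ := hμj i hi
    have h2 : ((μ i : ℝ) + 1) * μ i ≤ ((m j : ℝ) + 2) * (m j + 1) :=
      mul_le_mul (by linarith) h3 (by linarith) (by linarith)
    linarith
  refine ⟨?_, by linarith, ?_, ?_⟩
  · have h1 : n * (m j : ℝ) ^ 2 / 2 ≤ n * (((m j : ℝ) + 1) * m j / 2) := by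
      rw [mul_div_assoc]
      refine mul_le_mul_of_nonneg_left ?_ hn0
      nlinarith
    exact h1.trans hlow
  · have h1 : M ≤ ((∑ i, (μ i + 1) ^ 2 : ℕ) : ℝ) / 2 := by
      rw [hM', Nat.cast_sum, Finset.sum_div]
      refine Finset.sum_le_sum fun i _ => ?_
      push_cast
      have h0 : (0 : ℝ) ≤ μ i := Nat.cast_nonneg _
      nlinarith
    have h2 : σ * M ≤ n * ((m j : ℝ) + 1) ^ 2 / 2 := by
      have h3 := mul_le_mul_of_nonneg_left h1 hσ.le
      have h4 := hs j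
      rw [← hn] at h4
      linarith
    have h5 : 1 / 2 * (n * ((m j : ℝ) + 1) ^ 2 / 2) ≤ n * (((m j : ℝ) + 1) * m j / 2) := by
      have h6 : 1 / 2 * (((m j : ℝ) + 1) ^ 2 / 2) ≤ ((m j : ℝ) + 1) * m j / 2 := by
        nlinarith
      have h7 := mul_le_mul_of_nonneg_left h6 hn0
      linarith
    linarith
  · rw [hM', hMj']
    refine Finset.sum_le_sum_of_subset_of_nonneg (Finset.filter_subset _ _) fun i _ _ => ?_
    positivity

end Pool.Agent.Lib.MP_6b2d39_agHh
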