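import Pool.Agent.Lib.MP_6b2d39_agHz.Defs
import Pool.Agent.Lib.MP_6b2d39_agHy.Defs

set_option autoImplicit false

namespace Pool.Agent.Lib.MP_6b2d39_agHh

open Pool.Agent.Lib.MP_6b2d39_agHz Pool.Agent.Lib.MP_6b2d39_agHy

variable {R m S M D a β B V f Au : ℝ}

/-- The facts on `Y = S / R + R / 2`. -/
private theorem nh_y (hR : 1000000 ≤ R) (h : Ms R m S M) :
    R * m + R / 2 ≤ S / R + R / 2 ∧ M ≤ (S / R + R / 2) ^ 2 / 2 ∧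
      (S / R + R / 2) ^ 2 / 2 - R ^ 2 / 8 ≤ M := by
  obtain ⟨s0, s1, m0, m1⟩ := h
  have hR0 : (0 : ℝ) < R := by linarith
  have e : (S + R ^ 2 / 2) ^ 2 / (2 * R ^ 2) = (S / R + R / 2) ^ 2 / 2 := by
    field_simp
  rw [e] at m0 m1
  have h1 : R * m ≤ S / R := by
    rw [le_div_iff₀ hR0]
    linarith
  exact ⟨by linarith, m0, m1⟩

/-- The lower bound. -/
private theorem nh_low (hR : 1000000 ≤ R) (hm : 1 ≤ m) {Y W : ℝ} (hY : R * m + R / 2 ≤ Y)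
    (hD : 0 ≤ D) (hW : W ≤ R ^ 2 * m / 500)
    (h : Y ^ 2 / 2 - R ^ 2 / 8 - W - D ≤ D ^ 2 / 2) : Y - R / 8 ≤ D := by
  by_contra hc
  push Not at hc
  have hRm : R * 1 ≤ R * m := mul_le_mul_of_nonneg_left hm (by linarith)
  have hR2m : R ^ 2 * 1 ≤ R ^ 2 * m := mul_le_mul_of_nonneg_left hm (by positivity)
  have hR2 : 1000000 * R ≤ R ^ 2 := by nlinarith
  have h1 : (D + 1) ^ 2 < (Y - R / 8 + 1) ^ 2 :=
    pow_lt_pow_left₀ (by linarith) (by linarith) two_ne_zero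
  have h2 : (R * m + R / 2) * (R / 8 - 1) ≤ Y * (R / 8 - 1) :=
    mul_le_mul_of_nonneg_right hY (by linarith)
  have h3 : 1000000 * (R * m) ≤ R ^ 2 * m := by
    have h4 : 1000000 * (R * m) ≤ R * (R * m) :=
      mul_le_mul_of_nonneg_right hR (by linarith)
    linarith
  nlinarith

/-- HH2. `d_near_g` (`Hg/NumG.lean`) for `m ≥ 1`. With `Y = S / R + R / 2 ≥ R (m + 1 / 2)`:
`Y ^ 2 / 2 - R ^ 2 / 8 ≤ M ≤ Y ^ 2 / 2`. If `D > Y + R / 8`, then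
`a ≥ Y ^ 2 / 2 + Y R / 8 + R ^ 2 / 128 - β (Y + R / 8) - B > Y ^ 2 / 2`; if `D < Y - R / 8`, then
`a < Y ^ 2 / 2 - Y R / 8 + R ^ 2 / 128 + β Y + B < Y ^ 2 / 2 - R ^ 2 / 8 - V`
(`Y R / 8 ≥ R ^ 2 (m + 1 / 2) / 8`, `1 / 128 + 1 / 8 < 1 / 8 * 3 / 2 - 1 / 20`). -/
theorem d_near_h (hR : 1000000 ≤ R) (hm : 1 ≤ m) (h : Ms R m S M) (hD : 0 ≤ D) (hβ : 0 ≤ β)
    (hβ1 : β ≤ 1) (hB : 0 ≤ B) (hB1 : B ≤ R ^ 2 * m / 1000) (hV : V ≤ R ^ 2 * m / 1000)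
    (ha : |a - D ^ 2 / 2| ≤ β * D + B) (h1 : a ≤ M) (h2 : M - V ≤ a) :
    |D - (S / R + R / 2)| ≤ R / 8 := by
  have _ := hβ
  have _ := hB
  obtain ⟨y1, y2, y3⟩ := nh_y hR h
  obtain ⟨Y, hY⟩ : ∃ Y, Y = S / R + R / 2 := ⟨_, rfl⟩
  rw [← hY] at y1 y2 y3 ⊢
  obtain ⟨a1, a2⟩ := abs_le.1 ha
  have hβD : β * D ≤ D := mul_le_of_le_one_left hD hβ1
  have hRm : R * 1 ≤ R * m := mul_le_mul_of_nonneg_left hm (by linarith)
  have hR2m : R ^ 2 * 1 ≤ R ^ 2 * m := mul_le_mul_of_nonneg_left hm (by positivity)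
  rw [abs_le]
  constructor
  · have h3 := nh_low (W := V + B) hR hm y1 hD (by linarith) (by linarith)
    linarith
  · by_contra hc
    push Not at hc
    have h3 : (Y + R / 8 - 1) ^ 2 < (D - 1) ^ 2 :=
      pow_lt_pow_left₀ (by linarith) (by linarith) two_ne_zero
    have h4 : (R * m + R / 2) * (R / 8 - 1) ≤ Y * (R / 8 - 1) :=
      mul_le_mul_of_nonneg_right y1 (by linarith)
    have h5 : 1000000 * (R * m) ≤ R ^ 2 * m := by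
      have h6 : 1000000 * (R * m) ≤ R * (R * m) :=
        mul_le_mul_of_nonneg_right hR (by linarith)
      linarith
    have h7 : 0 ≤ (R / 8 - 1) ^ 2 := sq_nonneg _
    nlinarith

/-- HH3. -/
theorem d_lower_h (hR : 1000000 ≤ R) (hm : 1 ≤ m) (h : Ms R m S M) (hD : 0 ≤ D) (hβ : 0 ≤ β)
    (hβ1 : β ≤ 1) (hB : 0 ≤ B) (hB1 : B ≤ R ^ 2 * m / 1000)
    (ha : |a - D ^ 2 / 2| ≤ β * D + B) (h1 : M ≤ a) : S / R + R / 2 - R / 8 ≤ D := by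
  have _ := hβ
  have _ := hB
  obtain ⟨y1, y2, y3⟩ := nh_y hR h
  obtain ⟨a1, a2⟩ := abs_le.1 ha
  have hβD : β * D ≤ D := mul_le_of_le_one_left hD hβ1
  have hR2m : R ^ 2 * 1 ≤ R ^ 2 * m := mul_le_mul_of_nonneg_left hm (by positivity)
  exact nh_low (W := B) hR hm y1 hD (by linarith) (by linarith)

end Pool.Agent.Lib.MP_6b2d39_agHh
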