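import Pool.Agent.Lib.MP_6b2d39_agHh.ClassH
import Pool.Agent.Lib.MP_6b2d39_agHh.NumEH

set_option autoImplicit false

namespace Pool.Agent.Lib.MP_6b2d39_agHh

open Pool.Agent.Lib.MP_6b2d39_agHl Pool.Agent.Lib.MP_6b2d39_ag Pool.Agent.Lib.MP_6b2d39_agNw
  Pool.Agent.Lib.MP_6b2d39_agHg

/-- HH14. as `one_piece` (`Hg/OneP.lean`): `class_h`, `num_sm_h`, `size_h`, `pos_ch`, `neg_ch` -/
theorem one_piece_h : ∃ N0 : ℝ, ∀ (ν t0 t1 M v g : ℝ) (q n m u N s B : ℕ)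
    (P Z : Finset (ℕ × ℕ)) (μ : Fin n → ℕ), N0 ≤ ν → q = ⌊ν ^ (1 / 20 : ℝ)⌋₊ →
    Pc q N P Z s B t0 t1 → (n : ℝ) * (m + 1) ≤ Real.exp (2 * ν ^ (1 / 250 : ℝ)) → 1 ≤ m →
    (∀ i, μ i = m ∨ μ i = m + 1) →
    Ch ν (ν ^ (-(1 / 200) : ℝ) / 3) N M v g n m ((∑ i, (μ i + 1).choose 2 : ℕ) : ℝ) →
    |((P ∪ Z).card : ℝ) - (((∑ i, (μ i + 1).choose 2 : ℕ) : ℝ) + v / g)| ≤ (N : ℝ) / q + 2 →
    (v ≤ -(ν ^ (-(1 / 25) : ℝ) * ((N : ℝ) - 1)) ∨ ν ^ (-(1 / 25) : ℝ) * ((N : ℝ) - 1) ≤ v ∧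
      ((P ∪ Z).card : ℝ) - ((∑ i, (μ i + 1).choose 2 : ℕ) : ℝ) ≤ u) →
    EmpQ (P ∪ Z) (Sum.elim μ (fun _ => 1) : Fin n ⊕ Fin u → ℕ) Finset.univ := by
  obtain ⟨N1, h1⟩ := class_h
  obtain ⟨N2, h2⟩ := num_sm_h
  refine ⟨max N1 N2, fun ν t0 t1 M v g q n m u N s B P Z μ hν hq hPc hexp hm hμ hc ha hv => ?_⟩
  have hs := h2 ν q ((le_max_right _ _).trans hν) hq
  obtain ⟨k1, k2, k3⟩ := size_h hs hc
  have hm1 : (1 : ℝ) ≤ m := by exact_mod_cast hm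
  have hqN : q ≤ N := by
    have h3 : (2 : ℝ) ≤ q := by linarith [hs.q1]
    have h4 : (q : ℝ) ^ 2 ≤ (q : ℝ) ^ 10 := pow_le_pow_right₀ (by linarith) (by norm_num)
    have h5 : (q : ℝ) * 2 ≤ (q : ℝ) ^ 2 := by nlinarith
    have h6 : (q : ℝ) ^ 10 * 1 ≤ (q : ℝ) ^ 10 * m := mul_le_mul_of_nonneg_left hm1 (by positivity)
    have h7 : (q : ℝ) ≤ N := by linarith
    exact_mod_cast h7
  have hmN : m + 1 ≤ N := by exact_mod_cast k2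
  rcases hv with hv | ⟨hv, hu⟩
  · obtain ⟨l1, l2, l3⟩ := neg_ch hs hc hv le_rfl ha hPc.up
    exact h1 ν t0 t1 q n m u N s B P Z μ ((le_max_left _ _).trans hν) hq hqN hmN l1 hPc hc.nν hm
      hexp hμ (Or.inl ⟨l2, l3⟩)
  · obtain ⟨l1, l2⟩ := pos_ch hs hc hv le_rfl ha hPc.up
    exact h1 ν t0 t1 q n m u N s B P Z μ ((le_max_left _ _).trans hν) hq hqN hmN l1 hPc hc.nν hm
      hexp hμ (Or.inr ⟨l2, hu⟩)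

end Pool.Agent.Lib.MP_6b2d39_agHh
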