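import Pool.Agent.Lib.MP_6b2d39_agHh.NumQH
import Pool.Agent.Lib.MP_6b2d39_agHg.ParA
import Pool.Agent.Lib.MP_6b2d39_agHg.ChainY
import Pool.Agent.Lib.MP_6b2d39_agHg.RxB
import Pool.Agent.Lib.MP_6b2d39_agHz.Defs

set_option autoImplicit false

namespace Pool.Agent.Lib.MP_6b2d39_agHh

open Pool.Agent.Lib.MP_6b2d39_agHz Pool.Agent.Lib.MP_6b2d39_agHg

/-- the last rows are close to the ideal ones -/
private theorem par_xf {R K y f c : ℝ} {n m : ℕ} (hR : 0 < R) (hRn : R ^ 2 = n)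
    (hK : 0 ≤ K) (hKy : K ≤ y) (hf : R * (1 - Real.exp (-(y ^ (1 / 10 : ℝ)))) ≤ f)
    (hm : (n : ℝ) * (m + 1) ≤ Real.exp c) (hc : 4 + c ≤ K ^ (1 / 10 : ℝ)) :
    (R - f) * (m + 2) ≤ 1 / (2 * R) := by
  obtain ⟨Y, hY⟩ : ∃ Y, Y = y ^ (1 / 10 : ℝ) := ⟨_, rfl⟩
  rw [← hY] at hf
  have h1 : K ^ (1 / 10 : ℝ) ≤ Y := by
    rw [hY]
    exact Real.rpow_le_rpow hK hKy (by norm_num)
  have h2 : Real.exp (4 + c) ≤ Real.exp Y := Real.exp_le_exp.2 (hc.trans h1)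
  rw [Real.exp_add] at h2
  have h3 : (5 : ℝ) ≤ Real.exp 4 := by
    have := Real.add_one_le_exp (4 : ℝ)
    linarith
  have h4 : 0 < Real.exp c := Real.exp_pos c
  have h5 : 5 * Real.exp c ≤ Real.exp Y := (mul_le_mul_of_nonneg_right h3 h4.le).trans h2
  have hm0 : (0 : ℝ) ≤ m := Nat.cast_nonneg m
  have hn0 : (0 : ℝ) ≤ n := Nat.cast_nonneg n
  have h6 : 2 * ((n : ℝ) * (m + 2)) ≤ Real.exp Y := by
    have h7 : (n : ℝ) * (m + 2) ≤ 2 * ((n : ℝ) * (m + 1)) := by nlinarith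
    linarith
  have hE : Real.exp (-Y) * Real.exp Y = 1 := by
    rw [← Real.exp_add, neg_add_cancel, Real.exp_zero]
  have hE0 : 0 < Real.exp (-Y) := Real.exp_pos _
  have h8 : R - f ≤ R * Real.exp (-Y) := by linarith
  rw [le_div_iff₀ (by positivity)]
  calc (R - f) * (m + 2) * (2 * R) ≤ R * Real.exp (-Y) * (m + 2) * (2 * R) := by
        refine mul_le_mul_of_nonneg_right ?_ (by positivity)
        exact mul_le_mul_of_nonneg_right h8 (by positivity)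
    _ = Real.exp (-Y) * (2 * (R ^ 2 * (m + 2))) := by ring
    _ = Real.exp (-Y) * (2 * ((n : ℝ) * (m + 2))) := by rw [hRn]
    _ ≤ Real.exp (-Y) * Real.exp Y := mul_le_mul_of_nonneg_left h6 hE0.le
    _ = 1 := hE

/-- HH7. `par_g` (`Hg/ParG.lean`) for `m ≥ 1`: copy its proof with `num_q_h`; `m + 2 ≤ 3 m`,
`n (m + 2) ≤ 2 exp (2 ν ^ (1 / 250))`. -/
theorem par_h : ∃ N0 : ℝ, ∀ (ν κ y X h : ℝ) (q n m : ℕ), N0 ≤ ν → q = ⌊ν ^ (1 / 20 : ℝ)⌋₊ →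
    (q : ℝ) ^ 2 * (ν ^ (-(1 / 200) : ℝ) / 3) / 8 ≤ κ → κ ≤ (q : ℝ) ^ 2 → √κ ≤ y →
    y ≤ √κ + 1 / √κ → 0 ≤ X → 2 * X ≤ (q : ℝ) ^ 2 → ν ≤ n → 1 ≤ m →
    (n : ℝ) * (m + 1) ≤ Real.exp (2 * ν ^ (1 / 250 : ℝ)) →
    Sz ((q : ℝ) ^ 2) κ y X ∧ ∃ (k s : ℕ) (x f Δ B : ℝ), Rx y k x ∧ x ≤ √2 * y ∧ 1 ≤ s ∧ x ^ 2 ≤ s ∧
      Dm x (h + (3 + X) / y) (h + y - 2) ≤ s - x ^ 2 ∧ f = s / x ∧ f ^ 2 ≤ n ∧
      B = y ^ 2 / 4 + X + 20 + k * (5000 * ((q : ℝ) ^ 2) ^ 2) ∧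
      Δ = 4 / y * f + B + (max ((3 + X) / y - y / 2) 0) ^ 2 ∧
      Fz (√n) m f (Δ / 2) ∧ Δ ≤ 5 * √n / √κ ∧ |(3 + X) / y - y / 2| ≤ √n / 100 ∧
      4 / y * (|(3 + X) / y - y / 2| + 1) + B ≤ n * m / 1000 ∧
      ((m : ℝ) + 2) * (2 * Δ + 1) ≤ 40 * m * √n / √κ := by
  obtain ⟨Y0, hY0⟩ := chain_y
  obtain ⟨N0, hN0⟩ := num_q_h (max 10000 Y0)
  refine ⟨N0, fun ν κ y X h q n m h0 hq hκ1 hκ2 hy1 hy2 hX0 hX1 hn hm hexp => ?_⟩
  obtain ⟨a1, a2, -, a4⟩ := hN0 ν q h0 hq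
  obtain ⟨a5, a6⟩ := a4 κ hκ1
  obtain ⟨Q, hQ⟩ : ∃ Q : ℝ, Q = (q : ℝ) ^ 2 := ⟨_, rfl⟩
  obtain ⟨K, hK⟩ : ∃ K, K = √κ := ⟨_, rfl⟩
  obtain ⟨R, hR⟩ : ∃ R, R = √(n : ℝ) := ⟨_, rfl⟩
  rw [← hK] at a5 a6 hy1 hy2 ⊢
  rw [← hQ] at hκ2 hX1 ⊢
  rw [← hR]
  have hq4 : (10000 : ℝ) ≤ q := (le_max_left _ _).trans a1
  have hK4 : (10000 : ℝ) ≤ K := (le_max_left _ _).trans a5
  have hKY : Y0 ≤ y := (le_max_right _ _).trans (a5.trans hy1)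
  have hy4 : (10000 : ℝ) ≤ y := hK4.trans hy1
  have hy0 : 0 < y := by linarith
  have hK0 : 0 < K := by linarith
  have hκ0 : 0 < κ := Real.sqrt_pos.1 (hK ▸ hK0)
  have hKK : K ^ 2 = κ := by rw [hK, Real.sq_sqrt hκ0.le]
  have hQ8 : (100000000 : ℝ) ≤ Q := by
    rw [hQ]
    nlinarith
  have hQ0 : 0 < Q := by linarith
  have hKQ : K ≤ Q := by nlinarith
  -- the powers of `Q`
  have p2 : 100000000 * Q ≤ Q ^ 2 := by nlinarith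
  have p3 : 100000000 * Q ^ 2 ≤ Q ^ 3 := by nlinarith [pow_pos hQ0 2]
  have p4 : 100000000 * Q ^ 3 ≤ Q ^ 4 := by nlinarith [pow_pos hQ0 3]
  have p5 : 100000000 * Q ^ 4 ≤ Q ^ 5 := by nlinarith [pow_pos hQ0 4]
  -- `√n`
  have hn0 : (0 : ℝ) ≤ n := Nat.cast_nonneg n
  have hRn : R ^ 2 = n := by rw [hR, Real.sq_sqrt hn0]
  have hRQ : Q ^ 5 ≤ R := by
    rw [hR]
    refine Real.le_sqrt_of_sq_le ?_
    have e1 : (Q ^ 5) ^ 2 = (q : ℝ) ^ 20 := by rw [hQ]; ring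
    rw [e1]
    exact a2.trans hn
  have hR0 : 0 < R := by linarith
  have hR1 : R ≤ n := by
    rw [← hRn]
    nlinarith
  -- `y`
  have hyy : y ^ 2 ≤ Q + 3 := by
    obtain ⟨t, ht⟩ : ∃ t, t = 1 / K := ⟨_, rfl⟩
    rw [← ht] at hy2
    have hKt : K * t = 1 := by rw [ht, mul_one_div_cancel hK0.ne']
    have ht0 : 0 < t := by rw [ht]; positivity
    have ht1 : t ≤ 1 := by
      rw [ht, div_le_one hK0]
      linarith
    have h1 : y ^ 2 ≤ (K + t) ^ 2 := pow_le_pow_left₀ hy0.le hy2 2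
    have h2 : (K + t) ^ 2 = K ^ 2 + 2 * (K * t) + t ^ 2 := by ring
    have h3 : t ^ 2 ≤ 1 := pow_le_one₀ ht0.le ht1
    rw [h2, hKt, hKK] at h1
    linarith
  have hy8 : 1000000 * y ^ 8 ≤ n := by
    have h1 : y ^ 8 = (y ^ 2) ^ 4 := by ring
    have h2 : (y ^ 2) ^ 4 ≤ (2 * Q) ^ 4 := pow_le_pow_left₀ (by positivity) (by linarith) 4
    have h3 : (2 * Q) ^ 4 = 16 * Q ^ 4 := by ring
    rw [h1]
    rw [h3] at h2
    linarith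
  obtain ⟨k, s, x, f, b1, b2, b3, b4, b5, b6⟩ := hY0 y n hKY hy8
  rw [← hR] at b3 b6
  have hS : Sz Q κ y X := ⟨hQ8, by nlinarith, hκ2, hK ▸ hy1, hK ▸ hy2, hX0, hX1⟩
  have hyx : y ≤ x := b1.mono (by linarith)
  have hx0 : 0 < x := hy0.trans_le hyx
  have hcount := b1.count (by linarith)
  have hx2 : x ≤ √2 * y := by
    have h1 : x ≤ √(2 * y ^ 2) := Real.le_sqrt_of_sq_le b2
    rwa [Real.sqrt_mul (by norm_num), Real.sqrt_sq hy0.le] at h1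
  have hsR : R ≤ s := by
    have h1 : 1 * R ≤ y * R := mul_le_mul_of_nonneg_right (by linarith) hR0.le
    linarith
  have hs0 : (0 : ℝ) < s := by linarith
  have hs1 : 1 ≤ s := by
    have : (0 : ℕ) < s := by exact_mod_cast hs0
    omega
  have hdm := dm_le (h := h) hS hyx hx2
  have hdm' := (le_abs_self _).trans hdm
  have hf0 : 0 < f := by
    rw [b4]
    positivity
  have hfR : f ≤ R := by
    rw [hR]
    exact Real.le_sqrt_of_sq_le b5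
  have hk0 : (0 : ℝ) ≤ k := Nat.cast_nonneg k
  have hkQ : (k : ℝ) ≤ 50 * (Q + 3) := by linarith
  obtain ⟨B, hB⟩ : ∃ B, B = y ^ 2 / 4 + X + 20 + k * (5000 * Q ^ 2) := ⟨_, rfl⟩
  have hB0 : 0 ≤ B := by
    rw [hB]
    positivity
  have hB1 : B ≤ Q + 25 + 250000 * Q ^ 3 + 750000 * Q ^ 2 := by
    have h1 : (k : ℝ) * (5000 * Q ^ 2) ≤ 50 * (Q + 3) * (5000 * Q ^ 2) :=
      mul_le_mul_of_nonneg_right hkQ (by positivity)
    have h2 : 50 * (Q + 3) * (5000 * Q ^ 2) = 250000 * Q ^ 3 + 750000 * Q ^ 2 := by ring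
    rw [h2] at h1
    rw [hB]
    linarith
  obtain ⟨a, ha⟩ : ∃ a, a = (3 + X) / y := ⟨_, rfl⟩
  have ha0 : 0 ≤ a := by
    rw [ha]
    positivity
  have ha1 : a ≤ Q := by
    rw [ha, div_le_iff₀ hy0]
    nlinarith
  have hyQ : y ≤ Q + 3 := by nlinarith
  have hab : |a - y / 2| ≤ Q + 3 := by
    rw [abs_le]
    constructor <;> linarith
  have hab0 : 0 ≤ |a - y / 2| := abs_nonneg _
  have hmax0 : 0 ≤ max (a - y / 2) 0 := le_max_right _ _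
  have hmax1 : max (a - y / 2) 0 ≤ Q := max_le (by linarith) hQ0.le
  have hmax2 : (max (a - y / 2) 0) ^ 2 ≤ Q ^ 2 := pow_le_pow_left₀ hmax0 hmax1 2
  obtain ⟨r, hr⟩ : ∃ r, r = R / K := ⟨_, rfl⟩
  have hrK : r * K = R := by rw [hr, div_mul_cancel₀ _ hK0.ne']
  have hrQ : Q ^ 4 ≤ r := by
    rw [hr, le_div_iff₀ hK0]
    have h1 : Q ^ 4 * K ≤ Q ^ 4 * Q := mul_le_mul_of_nonneg_left hKQ (by positivity)
    have h2 : Q ^ 4 * Q = Q ^ 5 := by ring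
    linarith
  have hr0 : 0 < r := by linarith
  have hyf : 4 / y * f ≤ 4 * r := by
    have h1 : 4 / y ≤ 4 / K := div_le_div_of_nonneg_left (by norm_num) hK0 hy1
    have h2 : 4 / y * f ≤ 4 / K * R := mul_le_mul h1 hfR hf0.le (by positivity)
    have h3 : 4 / K * R = 4 * r := by rw [hr]; ring
    linarith
  have hyf0 : 0 ≤ 4 / y * f := by positivity
  obtain ⟨Δ, hΔ⟩ : ∃ Δ, Δ = 4 / y * f + B + (max (a - y / 2) 0) ^ 2 := ⟨_, rfl⟩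
  have hΔ0 : 0 ≤ Δ := by
    rw [hΔ]
    positivity
  have hΔ1 : Δ ≤ 5 * r := by
    rw [hΔ]
    linarith
  have hr5 : 5 * R / K = 5 * r := by rw [hr]; ring
  have hrR : 10000 * r ≤ R := by
    rw [← hrK]
    nlinarith
  have hm0 : (1 : ℝ) ≤ m := by exact_mod_cast hm
  refine ⟨hS, k, s, x, f, Δ, B, b1, hx2, hs1, ?_, ?_, b4, b5, hB, ?_, ?_, ?_, ?_, ?_, ?_⟩
  · linarith
  · linarith
  · rw [hΔ, ha]
  · refine ⟨by linarith, by linarith, hf0, hfR, ?_, by linarith, by linarith⟩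
    exact par_xf hR0 hRn hK0.le hy1 b6 hexp a6
  · rw [hr5]
    exact hΔ1
  · rw [← ha]
    linarith
  · rw [← ha]
    have h1 : 4 / y ≤ 1 := by
      rw [div_le_one hy0]
      linarith
    have h2 : 4 / y * (|a - y / 2| + 1) ≤ 1 * (|a - y / 2| + 1) :=
      mul_le_mul_of_nonneg_right h1 (by linarith)
    have h3 : (n : ℝ) * 1 ≤ n * m := mul_le_mul_of_nonneg_left hm0 hn0
    linarith
  · have h1 : 40 * (m : ℝ) * R / K = 40 * (m * r) := by rw [hr]; ring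
    rw [h1]
    have h2 : (m : ℝ) + 2 ≤ 3 * m := by linarith
    have h3 : 2 * Δ + 1 ≤ 11 * r := by linarith
    have h4 : ((m : ℝ) + 2) * (2 * Δ + 1) ≤ 3 * m * (11 * r) :=
      mul_le_mul h2 h3 (by linarith) (by positivity)
    have h5 : 0 ≤ (m : ℝ) * r := by positivity
    have h6 : 3 * (m : ℝ) * (11 * r) = 33 * (m * r) := by ring
    rw [h6] at h4
    linarith

end Pool.Agent.Lib.MP_6b2d39_agHh
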